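import Pool.Agent.Y150.HC.Tw
import Pool.Agent.H914R2.APart
import Pool.Agent.Y150.Lift.LA

/-!
# Two Hodge-Riemann structures joined by a restriction and a Gysin map (helper150)
-/

set_option autoImplicit false
set_option linter.unusedSectionVars false

open Finset

namespace Pool.Agent.Y150.HC

open Pool.Agent.H914

variable {K : Type*} [Field K] [CharZero K] {V V' : Type*} [AddCommGroup V] [Module K V]
  [AddCommGroup V'] [Module K V']

/-- A Hodge-Riemann structure with its Weyl operator. -/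
structure HRS (gr : ℕ → Submodule K V) (n : ℕ) (L : Module.End K V) (B : V →ₗ[K] V →ₗ[K] K)
    (C : ℕ → Set V) (H Lam w : Module.End K V) : Prop where
  alg : AlgPart gr n L B C
  sl : Sl2 H L Lam
  w1 : w * L = -(Lam * w)
  w3 : ∀ (m : ℕ) (v : V), Lam v = 0 → H v = -(m : K) • v →
    w v = ((m.factorial : K)⁻¹) • (L ^ m) v
  low : ∀ i ≤ n, ∀ a ∈ gr i, (L ^ (n - i + 1)) a = 0 → Lam a = 0
  wt : ∀ i, ∀ a ∈ gr i, H a = ((i : K) - n) • a
  hom : IsHom gr 2 L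
  bd : ∀ i, 2 * n + 1 ≤ i → gr i = ⊥

namespace HRS

variable {gr : ℕ → Submodule K V} {n : ℕ} {L : Module.End K V} {B : V →ₗ[K] V →ₗ[K] K}
  {C : ℕ → Set V} {H Lam w : Module.End K V} (h : HRS gr n L B C H Lam w)

include h

lemma wmem {l : ℕ} (hl : l ≤ n) {c : V} (hc : c ∈ C l) : w c ∈ C (n - l) :=
  h.alg.weyl_mem h.sl h.w1 h.w3 h.low h.wt h.hom h.bd hl hc

lemma wpos {l : ℕ} {c : V} (hc : c ∈ C l) (h0 : B c (w c) = 0) : c = 0 := by
  by_contra hne
  obtain ⟨s, h1, h2⟩ := h.alg.weyl_pos h.sl h.w1 h.w3 h.low h.wt h.hom h.bd hc hne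
  rw [h0] at h1
  have h3 : s = 0 := by exact_mod_cast h1.symm
  rw [h3, mul_zero] at h2
  exact lt_irrefl _ h2

lemma wsymm {l l' : ℕ} {c c' : V} (hc : c ∈ C l) (hc' : c' ∈ C l') : B c (w c') = B c' (w c) :=
  h.alg.weyl_symm h.sl h.w1 h.w3 h.low h.wt h.hom h.bd hc hc'

lemma wsq {l : ℕ} {c : V} (hc : c ∈ C l) : w (w c) = (-1 : K) ^ n • c :=
  h.alg.weyl_sq h.sl h.w1 h.w3 h.low h.wt h.hom h.bd hc

lemma gt {l : ℕ} (hl : n < l) {c : V} (hc : c ∈ C l) : c = 0 :=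
  h.alg.eq_zero_of_gt h.bd hl hc

lemma wL (x : V) : w (L x) = -(Lam (w x)) := LinearMap.congr_fun h.w1 x

/-- The form is nondegenerate on the algebraic classes. -/
lemma nondeg {l : ℕ} {c : V} (hc : c ∈ C l) (h0 : ∀ y ∈ C (n - l), B c y = 0) : c = 0 := by
  by_cases hl : l ≤ n
  · exact h.wpos hc (h0 _ (h.wmem hl hc))
  · exact h.gt (by omega) hc

lemma neg_mem {l : ℕ} {c : V} (hc : c ∈ C l) : -c ∈ C l := by
  have := h.alg.smul l (-1) c hc
  push_cast at this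
  rwa [neg_smul, one_smul] at this

lemma sub_mem {l : ℕ} {c c' : V} (hc : c ∈ C l) (hc' : c' ∈ C l) : c - c' ∈ C l := by
  rw [sub_eq_add_neg]
  exact h.alg.add l _ hc _ (h.neg_mem hc')

/-- The operator `Lam` preserves the algebraic classes. -/
lemma lam_mem {l : ℕ} {c : V} (hc : c ∈ C (l + 1)) : Lam c ∈ C l := by
  by_cases hl : l + 1 ≤ n
  · have h1 : Lam (w (w c)) = -(w (L (w c))) := by rw [h.wL (w c), neg_neg]
    rw [h.wsq hc, map_smul] at h1
    have h2 : L (w c) ∈ C (n - (l + 1) + 1) := h.alg.map_L _ _ (h.wmem hl hc)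
    have h3 := h.wmem (by omega) h2
    rw [show n - (n - (l + 1) + 1) = l by omega] at h3
    have h4 : Lam c = ((((-1) ^ n * (-1) : ℚ)) : K) • w (L (w c)) := by
      have h5 : (-1 : K) ^ n • ((-1 : K) ^ n • Lam c) = (-1 : K) ^ n • -(w (L (w c))) := by
        rw [h1]
      rw [smul_smul, ← mul_pow] at h5
      simp only [mul_neg, mul_one, neg_neg, one_pow, one_smul] at h5
      rw [h5]
      push_cast
      rw [mul_smul, neg_smul, one_smul, smul_neg]
    rw [h4]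
    exact h.alg.smul l _ _ h3
  · rw [h.gt (by omega) hc, map_zero]
    exact h.alg.zero l

lemma lam_zero {c : V} (hc : c ∈ C 0) : Lam c = 0 := by
  have h1 : Lam (w (w c)) = -(w (L (w c))) := by rw [h.wL (w c), neg_neg]
  have h2 : L (w c) ∈ C (n - 0 + 1) := h.alg.map_L _ _ (h.wmem (Nat.zero_le _) hc)
  rw [h.gt (by omega) h2, map_zero, neg_zero, h.wsq hc, map_smul] at h1
  rcases smul_eq_zero.1 h1 with h3 | h3
  · exact absurd h3 (pow_ne_zero _ (by norm_num))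
  · exact h3

/-- Orthogonal projection onto a rational subspace of the algebraic classes. -/
lemma exists_proj [Module.Finite K V] {U : Type*} [AddCommGroup U] [Module ℚ U] (τ : U →+ V)
    {p : ℕ} (hτ : ∀ a, τ a ∈ C p) {x : V} (hx : x ∈ C p) :
    ∃ a, ∀ a', B (τ a') (w (x - τ a)) = 0 := by
  by_cases hp : p ≤ n
  swap
  · exact ⟨0, fun a' => by rw [h.gt (by omega) (hτ a')]; simp⟩
  let _ : Module ℚ V := Module.compHom V (algebraMap ℚ K)
  have hq : ∀ (q : ℚ) (v : V), q • v = (q : K) • v := by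
    intro q v
    change (algebraMap ℚ K q) • v = _
    rw [eq_ratCast]
  obtain ⟨ret, hret⟩ : ∃ ret : K →ₗ[ℚ] ℚ, ∀ q : ℚ, ret (q : K) = q := by
    obtain ⟨g, hg⟩ := LinearMap.exists_leftInverse_of_injective (Algebra.linearMap ℚ K)
      (LinearMap.ker_eq_bot.2 (algebraMap ℚ K).injective)
    refine ⟨g, fun q => ?_⟩
    have := congrArg (fun F => F q) hg
    simpa using this
  have hsm : ∀ (q : ℚ) (a : U), τ (q • a) = (q : K) • τ a := by
    intro q a
    rw [map_rat_smul τ, hq]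
  have hsr : ∀ (q : ℚ) (y : K), ret ((q : K) * y) = q * ret y := by
    intro q y
    rw [← Rat.smul_def, map_smul, smul_eq_mul]
  -- rational values
  have hz : ∀ {c c' : V}, c ∈ C p → c' ∈ C p → ret (B c (w c')) = 0 → B c (w c') = 0 := by
    intro c c' hc hc' h0
    obtain ⟨s, hs⟩ := h.alg.rat _ _ c hc _ (h.wmem hp hc')
    rw [hs, hret] at h0
    rw [hs, h0, Rat.cast_zero]
  let κ : U →ₗ[ℚ] U →ₗ[ℚ] ℚ :=
    LinearMap.mk₂ ℚ (fun a b => ret (B (τ a) (w (τ b))))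
      (fun a a' b => by simp only [map_add, LinearMap.add_apply])
      (fun q a b => by
        rw [hsm, map_smul, LinearMap.smul_apply, smul_eq_mul, hsr, smul_eq_mul])
      (fun a b b' => by simp only [map_add])
      (fun q a b => by
        rw [hsm, map_smul, map_smul, smul_eq_mul, hsr, smul_eq_mul])
  have hκ : ∀ a b, κ a b = ret (B (τ a) (w (τ b))) := fun a b => rfl
  let lam : U →ₗ[ℚ] ℚ :=
    { toFun := fun a => ret (B (τ a) (w x))
      map_add' := fun a a' => by simp only [map_add, LinearMap.add_apply]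
      map_smul' := fun q a => by
        rw [hsm, map_smul, LinearMap.smul_apply, smul_eq_mul, hsr, RingHom.id_apply,
          smul_eq_mul] }
  have hlam : ∀ a, lam a = ret (B (τ a) (w x)) := fun a => rfl
  have hfg : (Submodule.span K (Set.range fun u : U => τ u)).FG := Submodule.FG.of_finite
  rw [Submodule.fg_span_iff_fg_span_finset_subset] at hfg
  obtain ⟨S, hS1, hS2⟩ := hfg
  choose e0 he0 using fun i : S => hS1 i.2
  let eqv := S.equivFin.symm
  obtain ⟨u, hu⟩ := Y150.Lift.rep κ (fun a b => by rw [hκ, hκ, h.wsymm (hτ a) (hτ b)])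
    (fun i : Fin S.card => e0 (eqv i)) (by
      intro a ha b
      have h1 : τ b ∈ Submodule.span K (S : Set V) := by
        rw [← hS2]
        exact Submodule.subset_span ⟨b, rfl⟩
      have h2 : ∀ y ∈ Submodule.span K (S : Set V), B (τ a) (w y) = 0 := by
        intro y hy
        induction hy using Submodule.span_induction with
        | mem y hy =>
          have h3 := ha (eqv.symm ⟨y, hy⟩)
          rw [hκ] at h3
          have h4 : τ (e0 (eqv (eqv.symm ⟨y, hy⟩))) = y := by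
            rw [eqv.apply_symm_apply]
            exact he0 ⟨y, hy⟩
          have h5 := hz (hτ a) (hτ _) h3
          rwa [h4] at h5
        | zero => simp
        | add y z _ _ h3 h4 => rw [map_add, map_add, h3, h4, add_zero]
        | smul c y _ h3 => rw [map_smul, map_smul, h3, smul_zero]
      rw [hκ, h2 _ h1, map_zero]) lam (by
      intro a ha
      have h1 := h.wpos (hτ a) (hz (hτ a) (hτ a) (ha a))
      rw [hlam, h1]
      simp)
  refine ⟨u, fun a' => ?_⟩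
  have h1 := hu a'
  rw [hlam, hκ] at h1
  have h2 : ret (B (τ a') (w (x - τ u))) = 0 := by
    rw [map_sub, map_sub, map_sub, h1, sub_self]
  exact hz (hτ a') (h.sub_mem hx (hτ u)) h2

end HRS

/-- Two Hodge-Riemann structures (for the components and their double intersections) joined by a
restriction and a Gysin map. -/
structure Pair (gr : ℕ → Submodule K V) (n : ℕ) (L : Module.End K V) (B : V →ₗ[K] V →ₗ[K] K)
    (C : ℕ → Set V) (H Lam w : Module.End K V)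
    (gr' : ℕ → Submodule K V') (n' : ℕ) (L' : Module.End K V') (B' : V' →ₗ[K] V' →ₗ[K] K)
    (C' : ℕ → Set V') (H' Lam' w' : Module.End K V')
    (ρ : V →ₗ[K] V') (γ : V' →ₗ[K] V) : Prop where
  Y : HRS gr n L B C H Lam w
  Z : HRS gr' n' L' B' C' H' Lam' w'
  dim : n = n' + 1
  rhoL : ∀ x, L' (ρ x) = ρ (L x)
  gamL : ∀ y, L (γ y) = γ (L' y)
  adj : ∀ y x, B (γ y) x = B' y (ρ x)
  rhoC : ∀ l, ∀ c ∈ C l, ρ c ∈ C' l
  gamC : ∀ l, ∀ c ∈ C' l, γ c ∈ C (l + 1)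
  rtw : ∀ x, w' (ρ x) = ρ (Lam (w x)) - Lam' (ρ (w x))
  gtw : ∀ y, w (γ y) = γ (Lam' (w' y)) - Lam (γ (w' y))

namespace Pair

variable {gr : ℕ → Submodule K V} {n : ℕ} {L : Module.End K V} {B : V →ₗ[K] V →ₗ[K] K}
  {C : ℕ → Set V} {H Lam w : Module.End K V}
  {gr' : ℕ → Submodule K V'} {n' : ℕ} {L' : Module.End K V'} {B' : V' →ₗ[K] V' →ₗ[K] K}
  {C' : ℕ → Set V'} {H' Lam' w' : Module.End K V'}
  {ρ : V →ₗ[K] V'} {γ : V' →ₗ[K] V}
  (h : Pair gr n L B C H Lam w gr' n' L' B' C' H' Lam' w' ρ γ)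

include h

lemma rhoLp (k : ℕ) (x : V) : ρ ((L ^ k) x) = (L' ^ k) (ρ x) := by
  induction k with
  | zero => rfl
  | succ k ih =>
    rw [pow_succ', pow_succ', Module.End.mul_apply, Module.End.mul_apply, ← ih, h.rhoL]

lemma gamLp (k : ℕ) (y : V') : γ ((L' ^ k) y) = (L ^ k) (γ y) := by
  induction k with
  | zero => rfl
  | succ k ih =>
    rw [pow_succ', pow_succ', Module.End.mul_apply, Module.End.mul_apply, ← ih, h.gamL]

/-- **The main lemma.** -/
lemma core {p : ℕ} {u : V} (hu : u ∈ C p) (h1 : γ (ρ u) = 0)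
    (h2 : ∀ l, l + 1 = p → ∀ b ∈ C' l, B (γ b) (w u) = 0) : ρ u = 0 := by
  have hdim := h.dim
  have hr := h.rhoC p u hu
  by_cases hp : p ≤ n'
  swap
  · exact h.Z.gt (by omega) hr
  apply h.Z.wpos hr
  have hw := h.Z.wmem hp hr
  -- `B' (ρ u) (w' ρ u) = B (γ w' ρ u) u`
  have e1 : B' (ρ u) (w' (ρ u)) = B (γ (w' (ρ u))) u := by
    rw [h.adj, h.Z.alg.symm _ _ (h.Z.alg.sub _ _ hr)]
  -- the twist lemma
  have e2 := h.gtw (w' (ρ u))
  rw [h.Z.wsq hr] at e2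
  simp only [map_smul, h1, map_zero, smul_zero, sub_zero] at e2
  have hg : γ (w' (ρ u)) ∈ C (n - p) := by
    have := h.gamC _ _ hw
    rwa [show n' - p + 1 = n - p by omega] at this
  have e3 : γ (w' (ρ u)) = -(w (γ (Lam' (ρ u)))) := by
    have h3 := h.Y.wsq hg
    rw [e2, map_smul] at h3
    have h4 : (-1 : K) ^ n • ((-1 : K) ^ n • γ (w' (ρ u))) = γ (w' (ρ u)) := by
      rw [smul_smul, ← mul_pow]; simp
    rw [← h4, ← h3, smul_smul, hdim, pow_succ]
    have h5 : (-1 : K) ^ n' * (-1) * (-1) ^ n' = -1 := by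
      have : (-1 : K) ^ n' * (-1) ^ n' = 1 := by rw [← mul_pow]; simp
      linear_combination (-1 : K) * this
    rw [h5, neg_smul, one_smul]
  rw [e1, e3, map_neg, LinearMap.neg_apply, neg_eq_zero]
  rcases Nat.eq_zero_or_pos p with rfl | hp0
  · rw [h.Z.lam_zero hr]
    simp
  · obtain ⟨l, rfl⟩ : ∃ l, p = l + 1 := ⟨p - 1, by omega⟩
    have hl := h.Z.lam_mem hr
    have hgl := h.gamC _ _ hl
    have e4 : B (w (γ (Lam' (ρ u)))) u = B u (w (γ (Lam' (ρ u)))) :=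
      (h.Y.alg.symm _ _ (h.Y.alg.sub _ _ hu) _).symm
    rw [e4, h.Y.wsymm hu hgl]
    exact h2 l rfl _ hl

/-- The kernel of `γ ρ`. -/
lemma exists_lift [Module.Finite K V] {U : Type*} [AddCommGroup U] [Module ℚ U] (σ : U →+ V')
    {p : ℕ} (hσ : ∀ a, σ a ∈ C' p) (hσ' : ∀ c ∈ C' p, ∃ a, σ a = c)
    (hgg : ∀ b ∈ C' p, γ (ρ (γ b)) = 0) {x : V} (hx : x ∈ C (p + 1)) (h1 : γ (ρ x) = 0) :
    ∃ b ∈ C' p, ρ (x - γ b) = 0 := by
  obtain ⟨a, ha⟩ := h.Y.exists_proj ((γ : V' →+ V).comp σ) (fun a => h.gamC _ _ (hσ a)) hx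
  refine ⟨σ a, hσ a, ?_⟩
  refine h.core (p := p + 1) (h.Y.sub_mem hx (h.gamC _ _ (hσ a))) ?_ ?_
  · rw [map_sub, map_sub, h1, hgg _ (hσ a), sub_zero]
  · intro l hl b hb
    obtain rfl : l = p := by omega
    obtain ⟨a', rfl⟩ := hσ' b hb
    exact ha a'

/-- Harmonic representatives. -/
lemma exists_harm [Module.Finite K V] {j : ℕ} (hj : j ≤ n) {U : Type*} [AddCommGroup U]
    [Module ℚ U] (σ : U →+ V) (hσ : ∀ l, l + 1 = j → (∀ a, σ a ∈ C l) ∧ ∀ c ∈ C l, ∃ a, σ a = c)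
    (hσ0 : j = 0 → ∀ a, σ a = 0)
    (hrg : ∀ l, l + 1 = j → ∀ a ∈ C l, ρ (γ (ρ a)) = 0) {s : V} (hs : s ∈ C j) (h1 : ρ s = 0) :
    ∃ a, ρ (s - γ (ρ (σ a))) = 0 ∧ ρ (w (s - γ (ρ (σ a)))) = 0 ∧ s - γ (ρ (σ a)) ∈ C j := by
  have hdim := h.dim
  rcases Nat.eq_zero_or_pos j with rfl | hj0
  · have h2 := h.Y.wmem hj hs
    have h3 : ρ (w s) = 0 := h.Z.gt (by omega) (h.rhoC _ _ h2)
    refine ⟨0, ?_, ?_, ?_⟩
    · simpa using h1
    · simpa using h3
    · simpa using hs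
  obtain ⟨l, rfl⟩ : ∃ l, j = l + 1 := ⟨j - 1, by omega⟩
  obtain ⟨hσ1, hσ2⟩ := hσ l rfl
  have hτ : ∀ a, γ (ρ (σ a)) ∈ C (l + 1) := fun a => h.gamC _ _ (h.rhoC _ _ (hσ1 a))
  obtain ⟨a, ha⟩ := h.Y.exists_proj ((γ : V' →+ V).comp ((ρ : V →+ V').comp σ)) hτ hs
  have hh : s - γ (ρ (σ a)) ∈ C (l + 1) := h.Y.sub_mem hs (hτ a)
  set x := s - γ (ρ (σ a)) with hx
  have hrx : ρ x = 0 := by rw [hx, map_sub, h1, hrg l rfl _ (hσ1 a), sub_zero]
  refine ⟨a, hrx, ?_, hh⟩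
  have hwx := h.Y.wmem hj hh
  refine h.core hwx ?_ ?_
  · have h3 := h.gamC _ _ (h.rhoC _ _ hwx)
    apply h.Y.nondeg h3
    intro y hy
    rw [show n - (n - (l + 1) + 1) = l by omega] at hy
    obtain ⟨a', rfl⟩ := hσ2 y hy
    rw [h.adj, h.Z.alg.symm _ _ (h.Z.alg.sub _ _ (h.rhoC _ _ hwx)), ← h.adj]
    exact ha a'
  · intro l' _ b hb
    rw [h.Y.wsq hh, map_smul, h.adj, hrx, map_zero, smul_zero]

/-- The harmonic classes are stable under the Lefschetz operator. -/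
lemma harm_L {u : V} (h1 : ρ u = 0) (h2 : ρ (w u) = 0) : ρ (L u) = 0 ∧ ρ (w (L u)) = 0 := by
  constructor
  · rw [← h.rhoL, h1, map_zero]
  · have h3 := h.rtw u
    rw [h1, h2, map_zero, map_zero, sub_zero] at h3
    rw [h.Y.wL, map_neg, ← h3, neg_zero]

lemma harm_Lp {u : V} (h1 : ρ u = 0) (h2 : ρ (w u) = 0) (k : ℕ) :
    ρ ((L ^ k) u) = 0 ∧ ρ (w ((L ^ k) u)) = 0 := by
  induction k with
  | zero => exact ⟨h1, h2⟩
  | succ k ih =>
    rw [pow_succ', Module.End.mul_apply]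
    exact h.harm_L ih.1 ih.2

/-- **The Hodge-Riemann relations for the classes which restrict to zero.** -/
lemma hodge [Module.Finite K V] {j : ℕ} (hj : 2 * j ≤ n) {U : Type*} [AddCommGroup U]
    [Module ℚ U] (σ : U →+ V) (hσ : ∀ l, l + 1 = j → (∀ a, σ a ∈ C l) ∧ ∀ c ∈ C l, ∃ a, σ a = c)
    (hσ0 : j = 0 → ∀ a, σ a = 0)
    (hrg : ∀ l, l + 1 = j → ∀ a ∈ C l, ρ (γ (ρ a)) = 0) {s : V} (hs : s ∈ C j) (h1 : ρ s = 0)
    (h6 : ∀ l, l + 1 = j → ∀ t ∈ C l, ρ t = 0 → B ((L ^ (n - 2 * j + 1)) s) t = 0) :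
    (∃ a, s = γ (ρ (σ a))) ∨ ∃ q : ℚ, B s ((L ^ (n - 2 * j)) s) = q ∧ 0 < (-1) ^ j * q := by
  have hdim := h.dim
  obtain ⟨a, ha1, ha2, ha3⟩ := h.exists_harm (by omega) σ hσ hσ0 hrg hs h1
  by_cases hx0 : s - γ (ρ (σ a)) = 0
  · exact Or.inl ⟨a, sub_eq_zero.1 hx0⟩
  right
  set g := γ (ρ (σ a)) with hg
  set x := s - g with hx
  set m := n - 2 * j with hm
  have hsx : s = x + g := by rw [hx]; abel
  have hgk : ∀ k, (L ^ k) g = γ (ρ ((L ^ k) (σ a))) := by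
    intro k
    rw [hg, ← h.gamLp, ← h.rhoLp]
  -- the harmonic part is primitive
  have hprim : (L ^ (m + 1)) x = 0 := by
    have hmem : (L ^ (m + 1)) x ∈ C (j + (m + 1)) := h.Y.alg.map_L_pow _ ha3
    rcases Nat.eq_zero_or_pos j with rfl | hj0
    · exact h.Y.gt (by omega) hmem
    obtain ⟨l, hl⟩ : ∃ l, j = l + 1 := ⟨j - 1, by omega⟩
    apply h.Y.wpos hmem
    have hy := h.Y.wmem (by omega) hmem
    rw [show n - (j + (m + 1)) = l by omega] at hy
    have hry := (h.harm_Lp ha1 ha2 (m + 1)).2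
    have e1 := h6 l hl.symm _ hy hry
    rw [hsx, map_add, map_add, LinearMap.add_apply, hgk, h.adj, hry, map_zero, add_zero] at e1
    exact e1
  obtain ⟨q, hq1, hq2⟩ := h.Y.alg.pos j hj x ha3 hprim hx0
  refine ⟨q, ?_, hq2⟩
  rw [← hq1]
  have hsym : B x ((L ^ m) g) = B ((L ^ m) g) x := h.Y.alg.symm _ _ (h.Y.alg.sub _ _ ha3) _
  have e2 : B x ((L ^ m) g) = 0 := by
    rw [hsym, hgk, h.adj, ha1, map_zero]
  have e3 : B g ((L ^ m) x) = 0 := by
    rw [hg, h.adj, (h.harm_Lp ha1 ha2 m).1, map_zero]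
  have e4 : B g ((L ^ m) g) = 0 := by
    have h7 : ρ g = 0 := by
      have : ρ s = ρ x + ρ g := by rw [hsx, map_add]
      rw [h1, ha1, zero_add] at this
      exact this.symm
    have h8 : B g ((L ^ m) g) = B' (ρ (σ a)) (ρ ((L ^ m) g)) := by
      conv_lhs => rw [hg, h.adj]
    rw [h8, h.rhoLp, h7, map_zero, map_zero]
  rw [hsx, map_add (L ^ m), map_add, map_add, LinearMap.add_apply, LinearMap.add_apply, e2, e3,
    e4, add_zero, add_zero, add_zero]

end Pair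

end Pool.Agent.Y150.HC
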