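import Pool.Agent.Y150.Lift.Defs
import Pool.Agent.H447R3.DegDefs

/-!
# Semistable degenerations and the standard conjecture of Hodge type: definitions (helper150)
-/

set_option autoImplicit false

open CategoryTheory AlgebraicGeometry

universe u v w u₁ v₁

namespace Pool.Agent.Y150.HC

open Pool.Agent.H914 Pool.Agent.H914.VarClass Pool.Agent.H914.VarClass.Obj
  Pool.Agent.H914.WeilCohomology Pool.Agent.Y150.Lift

section single

variable {k : Type u} [Field k] {𝒱 : VarClass k} (ops : CycleOps 𝒱)

/-- The cycle `z` of codimension `j` on `X` is numerically equivalent to zero. -/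
def NumTriv (X : 𝒱.Obj) (j : ℕ) (z : X.Cycles) : Prop :=
  ∀ w, X.IsCyc (X.dim - j) w → X.V.degCycle (ops.mul z w) = 0

/-- The intersection number `z · z · D ^ (n - 2 j)`, `n = dim X`. -/
noncomputable def selfNum (X : 𝒱.Obj) (D : X.Cycles) (j : ℕ) (z : X.Cycles) : ℚ :=
  X.V.degCycle (ops.mul z (divPow ops D (X.dim - 2 * j) z))

/-- The numerical form of the standard conjecture of Hodge type in codimension `j` for the variety
`X` with the ample divisor `D`: if `z` is a cycle of codimension `j` with `D ^ (n - 2 j + 1) z`
numerically equivalent to zero, but `z` is not, then `(-1) ^ j z · z · D ^ (n - 2 j) > 0`. -/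
def NumHodge (X : 𝒱.Obj) (D : X.Cycles) (j : ℕ) : Prop :=
  ∀ z, X.IsCyc j z → NumTriv ops X (X.dim - j + 1) (divPow ops D (X.dim - 2 * j + 1) z) →
    ¬ NumTriv ops X j z → 0 < (-1 : ℚ) ^ j * selfNum ops X D j z

/-- The hard Lefschetz theorem for the classes of cycles modulo numerical equivalence, in
codimension `j`: if `D ^ (n - 2 j) z` is numerically equivalent to zero, so is `z`. -/
def NumLefschetz (X : 𝒱.Obj) (D : X.Cycles) (j : ℕ) : Prop :=
  ∀ z, X.IsCyc j z → NumTriv ops X (X.dim - j) (divPow ops D (X.dim - 2 * j) z) →
    NumTriv ops X j z

/-- The Hodge index theorem for divisors (with the theorem of Matsusaka), and the numerical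
standard conjectures in the codimensions from `2` to `dim X / 2`: the hard Lefschetz theorem and
the conjecture of Hodge type. -/
structure NumStandard {ops : CycleOps 𝒱} (W : WeilCohomology.{u, v} ops) (X : 𝒱.Obj)
    (D : X.Cycles) : Prop where
  index : HodgeIndex W X D
  lefschetz : ∀ j, 2 ≤ j → 2 * j < X.dim → NumLefschetz ops X D j
  hodge : ∀ j, 2 ≤ j → 2 * j ≤ X.dim → NumHodge ops X D j

end single

section fibre

variable {k : Type u} [Field k] {𝒱 : VarClass k} {d : ℕ} (F : SpecialFibre 𝒱 d)
  (ops : CycleOps 𝒱)

/-- The sum of the intersection numbers of two families of cycles on the components. -/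
noncomputable def famNum (s t : F.Fam) : ℚ := ∑ m, (F.Y m).V.degCycle (ops.mul (s m) (t m))

/-- The product of a family with the ample divisor. -/
noncomputable def famD (s : F.Fam) : F.Fam := fun m => ops.mul (F.D m) (s m)

/-- The Gysin map, from the cycles on the pairwise intersections to the families of cycles on the
components. -/
noncomputable def gysin (y : ∀ t, (F.Z t).Cycles) : F.Fam :=
  ∑ t, (F.single (F.b t) (ops.push (F.q t) (y t)) - F.single (F.a t) (ops.push (F.p t) (y t)))

/-- Up to the sign, the restrictions to the components of the cycle on the total space given by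
the family `s` of cycles on the components. -/
noncomputable def vert (s : F.Fam) : F.Fam := gysin F ops (F.rho ops s)

/-- The restrictions of the family to the pairwise intersections of the components agree, up to
homological equivalence. -/
def Agrees {ops : CycleOps 𝒱} (W : WeilCohomology.{u, v} ops) (s : F.Fam) : Prop :=
  ∀ t, HomTriv W (F.Z t) (F.rho ops s t)

end fibre

section model

variable {k₁ : Type u₁} [Field k₁] {𝒱₁ : VarClass k₁} {ops₁ : CycleOps 𝒱₁}
  (W₁ : WeilCohomology.{u₁, v₁} ops₁) (X : 𝒱₁.Obj) (D : X.Cycles)
  {k : Type u} [Field k] {𝒱 : VarClass k} {ops : CycleOps 𝒱} (W : WeilCohomology.{u, v} ops)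
  {d : ℕ} (F : SpecialFibre 𝒱 d) (R : ℕ → X.Cycles → F.Fam → Prop)

/-- The relation `R j z s` says that `z` and `s` are the restrictions of a cycle of codimension `j`
on the model to the generic fibre `X` and to the components of the special fibre (up to rational
equivalence). All cycles on `X` can be extended to the model, the relation is compatible with the
product with the ample divisor, and the restrictions to the pairwise intersections of the components
agree. -/
structure Specializes : Prop where
  isFam : ∀ j z s, R j z s → F.IsFam j s
  extends_ : ∀ j z, X.IsCyc j z → ∃ s, R j z s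
  mul : ∀ j z s, R j z s → R (j + 1) (ops₁.mul D z) (famD F ops s)
  agrees : ∀ j z s, R j z s → Agrees F W s

/-- Intersection numbers can be computed on the special fibre, and a homologically trivial cycle on
`X` is orthogonal to the cohomology classes of the special fibre. -/
structure Conserves : Prop where
  number : ∀ j j' z z' s s', j + j' = d → R j z s → R j' z' s' →
    X.V.degCycle (ops₁.mul z z') = famNum F ops s s'
  trivial : ∀ j z s t, R j z s → W₁.cl X z = 0 → F.IsFam (d - j) t → Agrees F W t →
    famNum F ops s t = 0

/-- If the restrictions of a cycle on the model to the components of the special fibre are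
homologically equivalent to the restrictions of a cycle supported on the special fibre, then its
restriction to the generic fibre is homologically equivalent to zero (weights). -/
structure WeightArgument : Prop where
  zero : ∀ z s, R 0 z s → (∀ m, HomTriv W (F.Y m) (s m)) → W₁.cl X z = 0
  succ : ∀ j z s a, R (j + 1) z s → F.IsFam j a →
    (∀ m, HomTriv W (F.Y m) (s m - vert F ops a m)) → W₁.cl X z = 0

/-- The variety `X` of dimension `d` with the ample divisor `D` is the generic fibre of a projective
strictly semistable scheme over a discrete valuation ring (with finite residue field) with the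
special fibre `F`, on which `D` extends to a relatively ample divisor. -/
structure IsDegeneration : Prop where
  dim_X : X.dim = d
  isCyc_D : X.IsCyc 1 D
  compat : F.Compat W
  specializes : Specializes (ops₁ := ops₁) X D W F R
  conserves : Conserves W₁ X W F R
  vertical : ∀ l a, F.IsFam l a → Agrees F W (vert F ops a)
  weight : WeightArgument W₁ X W F R

end model

/-- The standard conjecture of Hodge type for the homologically primitive cycles, up to numerical
equivalence. -/
def PrimitivePositive {k : Type u} [Field k] {𝒱 : VarClass k} {ops : CycleOps 𝒱}
    (W : WeilCohomology.{u, v} ops) (X : 𝒱.Obj) (D : X.Cycles) : Prop :=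
  ∀ j, 2 * j ≤ X.dim → ∀ z, X.IsCyc j z → HomTriv W X (divPow ops D (X.dim - 2 * j + 1) z) →
    ¬ NumTriv ops X j z → 0 < (-1 : ℚ) ^ j * selfNum ops X D j z

end Pool.Agent.Y150.HC
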