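import Pool.Agent.Y150.HC.Core
import Pool.Agent.Y150.Lift.Solve
import Pool.Agent.H914R2.GBasic
import Pool.Agent.H914R2.HLam

/-!
# The Hodge-Riemann structures of a special fibre (helper150)
-/

set_option autoImplicit false
set_option linter.unusedSectionVars false

open CategoryTheory AlgebraicGeometry

universe u v w

namespace Pool.Agent.Y150.HC

open Pool.Agent.H914 Pool.Agent.H914.VarClass Pool.Agent.H914.VarClass.Obj
  Pool.Agent.H914.WeilCohomology Pool.Agent.Y150.Lift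

variable {k : Type u} [Field k] {𝒱 : VarClass k} {ops : CycleOps 𝒱}
  (W : WeilCohomology.{u, v} ops)

section fam

variable {ι : Type} [Fintype ι] (X : ι → 𝒱.Obj)

/-- The graded pieces of the cohomology of a family. -/
noncomputable def fgr (i : ℕ) : Submodule W.K (∀ m, W.H (X m)) :=
  Submodule.pi Set.univ (fun m => W.gr (X m) i)

variable {X}

lemma mem_fgr {i : ℕ} {x : ∀ m, W.H (X m)} : x ∈ fgr W X i ↔ ∀ m, x m ∈ W.gr (X m) i := by
  rw [fgr, Submodule.mem_pi]
  exact ⟨fun h m => h m trivial, fun h m _ => h m⟩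

/-- The operator on a family. -/
noncomputable def fop (T : ∀ m, Module.End W.K (W.H (X m))) : Module.End W.K (∀ m, W.H (X m)) :=
  LinearMap.pi fun m => T m ∘ₗ LinearMap.proj m

lemma fop_apply (T : ∀ m, Module.End W.K (W.H (X m))) (x : ∀ m, W.H (X m)) (m : ι) :
    fop W T x m = T m (x m) := rfl

lemma fop_sl2 {H L Lam : ∀ m, Module.End W.K (W.H (X m))} (h : ∀ m, Sl2 (H m) (L m) (Lam m)) :
    Sl2 (fop W H) (fop W L) (fop W Lam) := by
  constructor
  · apply LinearMap.ext; intro x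
    funext m
    exact LinearMap.congr_fun (h m).ef (x m)
  · apply LinearMap.ext; intro x
    funext m
    have := LinearMap.congr_fun (h m).he (x m)
    rw [two_mul] at this ⊢
    exact this
  · apply LinearMap.ext; intro x
    funext m
    have := LinearMap.congr_fun (h m).hf (x m)
    rw [two_mul] at this ⊢
    exact this

/-- The algebraic classes of a family. -/
lemma falgPart {D : ∀ m, (X m).Cycles} (hD : ∀ m, (X m).IsCyc 1 (D m)) {n : ℕ}
    (hn : ∀ m, (X m).dim = n) (hA : ∀ m, LefschetzA W (X m) (D m))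
    (hH : ∀ m, HodgeType W (X m) (D m)) :
    AlgPart (fgr W X) n (fL W X D) (fbil W X) (fun l => (falg W X l : Set (∀ m, W.H (X m)))) where
  sub l c hc := (mem_fgr W).2 (falg_gr W hc)
  zero l := (falg W X l).zero_mem
  add l c hc d hd := (falg W X l).add_mem hc hd
  smul l q c hc := by
    intro m
    exact alg_smul q (hc m)
  map_L l c hc := falg_L W hD hc
  rat l l' c hc d hd := by
    choose s hs using fun m => (algPart (hD m) (hA m) (hH m)).rat l l' (c m) (hc m) (d m) (hd m)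
    refine ⟨∑ m, s m, ?_⟩
    rw [fbil_apply, Rat.cast_sum]
    exact Finset.sum_congr rfl (fun m _ => hs m)
  hl l hl c hc := by
    choose c' hc' hcc using fun m => (algPart (hD m) (hA m) (hH m)).hl l (by rw [hn]; exact hl)
      (c m) (by rw [hn]; exact hc m)
    refine ⟨c', hc', ?_⟩
    funext m
    rw [fL_pow_apply]
    have := hcc m
    rwa [hn] at this
  pos l hl c hc hp hc0 := by
    have hp' : ∀ m, (LinearMap.mulLeft W.K (W.cl _ (D m)) ^ (n - 2 * l + 1)) (c m) = 0 := by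
      intro m
      rw [← fL_pow_apply, hp]
      rfl
    have key : ∀ m, ∃ s : ℚ, bil W (X m) (c m)
        ((LinearMap.mulLeft W.K (W.cl _ (D m)) ^ (n - 2 * l)) (c m)) = s ∧
        0 ≤ (-1) ^ l * s ∧ (c m ≠ 0 → 0 < (-1) ^ l * s) := by
      intro m
      by_cases h0 : c m = 0
      · exact ⟨0, by rw [h0]; simp, by simp, fun h => absurd h0 h⟩
      · obtain ⟨s, hs1, hs2⟩ := (algPart (hD m) (hA m) (hH m)).pos l (by rw [hn]; exact hl) (c m)
          (hc m) (by rw [hn]; exact hp' m) h0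
        rw [hn] at hs1
        exact ⟨s, hs1, hs2.le, fun _ => hs2⟩
    choose s hs1 hs2 hs3 using key
    refine ⟨∑ m, s m, ?_, ?_⟩
    · rw [fbil_apply, Rat.cast_sum]
      refine Finset.sum_congr rfl (fun m _ => ?_)
      rw [fL_pow_apply, ← hs1 m]
      rfl
    · rw [Finset.mul_sum]
      have hex : ∃ m, c m ≠ 0 := by
        by_contra h
        push Not at h
        exact hc0 (funext h)
      obtain ⟨m, hm⟩ := hex
      exact Finset.sum_pos' (fun m _ => hs2 m) ⟨m, Finset.mem_univ m, hs3 m hm⟩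
  self a b := fbil_L W hD a b
  deg i j a ha b hb hij := by
    rw [fbil_apply]
    refine Finset.sum_eq_zero (fun m _ => ?_)
    exact W.tr_eq_zero (W.mul_mem ((mem_fgr W).1 ha m) ((mem_fgr W).1 hb m)) (by rw [hn]; exact hij)
  symm l a ha b := fbil_comm W (fun m => (mem_fgr W).1 ha m) b

/-- The weight operator of a family. -/
noncomputable def fwt (n : ℕ) : Module.End W.K (∀ m, W.H (X m)) :=
  fop W (fun m => wt (W.isInternal (X m)) n)

lemma wt_gr (X : 𝒱.Obj) (n : ℕ) {i : ℕ} {a : W.H X} (ha : a ∈ W.gr X i) :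
    wt (W.isInternal X) n a = ((i : W.K) - n) • a := by
  rw [wt, scal_apply (W.isInternal X) _ ha, node]
  push_cast; rfl

/-- The `sl(2)`-triple of a family. -/
lemma exists_fam {D : ∀ m, (X m).Cycles} (hD : ∀ m, (X m).IsCyc 1 (D m)) {n : ℕ}
    (hn : ∀ m, (X m).dim = n) (hHL : ∀ m, HardLefschetz W (X m) (D m)) :
    ∃ Lam : Module.End W.K (∀ m, W.H (X m)), Sl2 (fwt W n) (fL W X D) Lam ∧
      ∀ i ≤ n, ∀ a ∈ fgr W X i, ((fL W X D) ^ (n - i + 1)) a = 0 → Lam a = 0 := by
  have key : ∀ m, ∃ Lam : Module.End W.K (W.H (X m)),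
      Sl2 (wt (W.isInternal (X m)) n) (LinearMap.mulLeft W.K (W.cl _ (D m))) Lam ∧
      ∀ i ≤ n, ∀ a ∈ W.gr (X m) i,
        ((LinearMap.mulLeft W.K (W.cl _ (D m))) ^ (n - i + 1)) a = 0 → Lam a = 0 := by
    intro m
    have h1 : HardLef (W.gr (X m)) n (LinearMap.mulLeft W.K (W.cl _ (D m))) := by
      have := hHL m
      rwa [HardLefschetz, hn] at this
    obtain ⟨Lam, t, -, hval⟩ := exists_sl2 (W.isInternal (X m)) (mulLeft_isHom (hD m))
      (fun i hi => W_hbd i (by rw [hn]; exact hi)) h1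
    refine ⟨Lam, t, fun i hi a ha hp => ?_⟩
    have := hval i hi a ha hp 0 (by omega)
    simpa using this
  choose Lam h1 h2 using key
  refine ⟨fop W Lam, fop_sl2 W h1, fun i hi a ha hp => ?_⟩
  funext m
  rw [fop_apply]
  refine h2 m i hi (a m) ((mem_fgr W).1 ha m) ?_
  rw [← fL_pow_apply, hp]
  rfl

lemma fL_isHom {D : ∀ m, (X m).Cycles} (hD : ∀ m, (X m).IsCyc 1 (D m)) :
    IsHom (fgr W X) 2 (fL W X D) := by
  intro i a ha
  by_cases hi : 0 ≤ i
  · lift i to ℕ using hi
    rw [grZ_natCast] at ha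
    rw [show ((i : ℤ) + 2) = ((i + 2 : ℕ) : ℤ) by push_cast; rfl, grZ_natCast]
    refine (mem_fgr W).2 (fun m => ?_)
    have h1 := mulLeft_isHom (W := W) (hD m) i (a m) (by
      rw [grZ_natCast]
      exact (mem_fgr W).1 ha m)
    rwa [show ((i : ℤ) + 2) = ((i + 2 : ℕ) : ℤ) by push_cast; rfl, grZ_natCast] at h1
  · rw [grZ_of_neg (by omega)] at ha
    rw [(Submodule.mem_bot _).1 ha, map_zero]
    exact Submodule.zero_mem _

lemma fgr_bot {n : ℕ} (hn : ∀ m, (X m).dim = n) (i : ℕ) (hi : 2 * n + 1 ≤ i) :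
    fgr W X i = ⊥ := by
  rw [eq_bot_iff]
  intro x hx
  rw [Submodule.mem_bot]
  funext m
  have h1 := (mem_fgr W).1 hx m
  rw [W_hbd i (by rw [hn]; exact hi)] at h1
  exact (Submodule.mem_bot _).1 h1

/-- The Hodge-Riemann structure of a family. -/
lemma fHRS {D : ∀ m, (X m).Cycles} (hD : ∀ m, (X m).IsCyc 1 (D m)) {n : ℕ}
    (hn : ∀ m, (X m).dim = n) (hA : ∀ m, LefschetzA W (X m) (D m))
    (hH : ∀ m, HodgeType W (X m) (D m)) {Lam w : Module.End W.K (∀ m, W.H (X m))}
    (t : Sl2 (fwt W n) (fL W X D) Lam)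
    (hlow : ∀ i ≤ n, ∀ a ∈ fgr W X i, ((fL W X D) ^ (n - i + 1)) a = 0 → Lam a = 0)
    (w1 : w * fL W X D = -(Lam * w))
    (w3 : ∀ (m : ℕ) (v : ∀ m, W.H (X m)), Lam v = 0 → fwt W n v = -(m : W.K) • v →
      w v = ((m.factorial : W.K)⁻¹) • ((fL W X D) ^ m) v) :
    HRS (fgr W X) n (fL W X D) (fbil W X) (fun l => (falg W X l : Set (∀ m, W.H (X m))))
      (fwt W n) Lam w where
  alg := falgPart W hD hn hA hH
  sl := t
  w1 := w1
  w3 := w3
  low := hlow
  wt i a ha := by
    funext m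
    exact wt_gr W (X m) n ((mem_fgr W).1 ha m)
  hom := fL_isHom W hD
  bd := fgr_bot W hn

end fam

/-- The standard conjectures `A` (Lefschetz type) and of Hodge type for the variety `X` with the
ample divisor `D`, and the hard Lefschetz theorem. -/
structure Standard (X : 𝒱.Obj) (D : X.Cycles) : Prop where
  hard : HardLefschetz W X D
  lef : LefschetzA W X D
  hodge : HodgeType W X D

section fibre

variable {W} {d : ℕ} {F : SpecialFibre 𝒱 d}

lemma rho_wt {n : ℕ} (x : ∀ m, W.H (F.Y m)) :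
    fwt W n (F.rhoH W x) - F.rhoH W (fwt W (n + 1) x) = F.rhoH W x := by
  have key : ∀ {Y Z : 𝒱.Obj} (f : Z ⟶ Y) (y : W.H Y),
      wt (W.isInternal Z) n (W.map f y) - W.map f (wt (W.isInternal Y) (n + 1) y) =
        W.map f y := by
    intro Y Z f y
    have h1 : (wt (W.isInternal Z) n) ∘ₗ (W.map f).toLinearMap -
        (W.map f).toLinearMap ∘ₗ (wt (W.isInternal Y) (n + 1)) = (W.map f).toLinearMap := by
      apply gr_ext (W.isInternal Y)
      intro i a ha
      rw [LinearMap.sub_apply, LinearMap.comp_apply, LinearMap.comp_apply, AlgHom.toLinearMap_apply,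
        wt_gr W Z n (W.map_mem f ha), wt_gr W Y (n + 1) ha, map_smul, AlgHom.toLinearMap_apply,
        ← sub_smul]
      have : (i : W.K) - n - (i - ((n + 1 : ℕ) : W.K)) = 1 := by push_cast; ring
      rw [this, one_smul]
    exact LinearMap.congr_fun h1 y
  funext t
  have h1 := key (F.q t) (x (F.b t))
  have h2 := key (F.p t) (x (F.a t))
  change wt (W.isInternal (F.Z t)) n (F.rhoH W x t) - F.rhoH W (fwt W (n + 1) x) t =
    F.rhoH W x t
  rw [SpecialFibre.rhoH_apply, SpecialFibre.rhoH_apply]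
  change wt (W.isInternal (F.Z t)) n (W.map (F.q t) (x (F.b t)) - W.map (F.p t) (x (F.a t))) -
    (W.map (F.q t) (wt (W.isInternal (F.Y (F.b t))) (n + 1) (x (F.b t))) -
      W.map (F.p t) (wt (W.isInternal (F.Y (F.a t))) (n + 1) (x (F.a t)))) = _
  rw [map_sub]
  calc _ = (wt (W.isInternal (F.Z t)) n (W.map (F.q t) (x (F.b t))) -
        W.map (F.q t) (wt (W.isInternal (F.Y (F.b t))) (n + 1) (x (F.b t)))) -
      (wt (W.isInternal (F.Z t)) n (W.map (F.p t) (x (F.a t))) -
        W.map (F.p t) (wt (W.isInternal (F.Y (F.a t))) (n + 1) (x (F.a t)))) := by abel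
    _ = _ := by rw [h1, h2]

lemma fop_single (T : ∀ m, Module.End W.K (W.H (F.Y m))) (m : Fin F.r) (x : W.H (F.Y m)) :
    fop W T (Pi.single m x) = Pi.single m (T m x) := by
  funext m'
  rw [fop_apply]
  by_cases h : m' = m
  · subst h
    rw [Pi.single_eq_same, Pi.single_eq_same]
  · rw [Pi.single_eq_of_ne h, Pi.single_eq_of_ne h, map_zero]

lemma gam_wt {n : ℕ} (hd : d = n + 1) (y : ∀ t, W.H (F.Z t)) :
    fwt W (n + 1) (F.gamH W y) - F.gamH W (fwt W n y) = F.gamH W y := by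
  have key : ∀ {Y Z : 𝒱.Obj} (f : Z ⟶ Y) (_ : Y.dim = Z.dim + 1) (y : W.H Z),
      wt (W.isInternal Y) (n + 1) (W.push f y) = W.push f (wt (W.isInternal Z) n y) +
        W.push f y := by
    intro Y Z f hYZ y
    have h1 : (wt (W.isInternal Y) (n + 1)) ∘ₗ (W.push f) =
        (W.push f) ∘ₗ (wt (W.isInternal Z) n) + (W.push f) := by
      apply gr_ext (W.isInternal Z)
      intro i a ha
      have h2 := W.push_mem f ha
      rw [show (i : ℤ) + 2 * ((Y.dim : ℤ) - Z.dim) = ((i + 2 : ℕ) : ℤ) by rw [hYZ]; push_cast; ring,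
        grZ_natCast] at h2
      rw [LinearMap.add_apply, LinearMap.comp_apply, LinearMap.comp_apply, wt_gr W Y (n + 1) h2,
        wt_gr W Z n ha, map_smul]
      have : ((i + 2 : ℕ) : W.K) - ((n + 1 : ℕ) : W.K) = ((i : W.K) - n) + 1 := by
        push_cast; ring
      rw [this, add_smul, one_smul]
    exact LinearMap.congr_fun h1 y
  have hdq : ∀ t, (F.Y (F.b t)).dim = (F.Z t).dim + 1 := fun t => by
    have h1 := F.dim_Y (F.b t); have h2 := F.dim_Z t; omega
  have hdp : ∀ t, (F.Y (F.a t)).dim = (F.Z t).dim + 1 := fun t => by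
    have h1 := F.dim_Y (F.a t); have h2 := F.dim_Z t; omega
  rw [sub_eq_iff_eq_add, SpecialFibre.gamH_apply, SpecialFibre.gamH_apply, map_sum,
    ← Finset.sum_add_distrib]
  refine Finset.sum_congr rfl (fun t _ => ?_)
  rw [map_sub, fwt, fop_single, fop_single, key (F.q t) (hdq t), key (F.p t) (hdp t),
    Pi.single_add, Pi.single_add]
  have e : (fwt W n y) t = wt (W.isInternal (F.Z t)) n (y t) := rfl
  rw [e]
  abel

/-- The two Hodge-Riemann structures of a special fibre. -/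
theorem exists_pair {n : ℕ} (hd : d = n + 1) (hF : F.Compat W)
    (hY : ∀ m, Standard W (F.Y m) (F.D m)) (hZ : ∀ t, Standard W (F.Z t) (F.E t)) :
    ∃ Lam w Lam' w', Pair (fgr W F.Y) d (fL W F.Y F.D) (fbil W F.Y)
      (fun l => (falg W F.Y l : Set (∀ m, W.H (F.Y m)))) (fwt W d) Lam w
      (fgr W F.Z) n (fL W F.Z F.E) (fbil W F.Z)
      (fun l => (falg W F.Z l : Set (∀ m, W.H (F.Z m)))) (fwt W n) Lam' w'
      (F.rhoH W) (F.gamH W) := by
  have hdY : ∀ m, (F.Y m).dim = d := F.dim_Y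
  have hdZ : ∀ t, (F.Z t).dim = n := fun t => by have := F.dim_Z t; omega
  obtain ⟨Lam, t, hlow⟩ := exists_fam W F.isCyc_D hdY (fun m => (hY m).hard)
  obtain ⟨Lam', t', hlow'⟩ := exists_fam W F.isCyc_E hdZ (fun m => (hZ m).hard)
  obtain ⟨w, w', ⟨w1, w3⟩, ⟨w1', w3'⟩, h1, h2⟩ := exists_weyl_pair t t'
  refine ⟨Lam, w, Lam', w', ?_⟩
  exact
    { Y := fHRS W F.isCyc_D hdY (fun m => (hY m).lef) (fun m => (hY m).hodge) t hlow w1 w3
      Z := fHRS W F.isCyc_E hdZ (fun m => (hZ m).lef) (fun m => (hZ m).hodge) t' hlow' w1' w3'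
      dim := hd
      rhoL := fun x => (SpecialFibre.rho_L hF x).symm
      gamL := fun y => (SpecialFibre.gam_L hF y).symm
      adj := fun y x => SpecialFibre.fbil_gam y x
      rhoC := fun l c hc => SpecialFibre.rho_falg hc
      gamC := fun l c hc => SpecialFibre.gam_falg hc
      rtw := h1 (F.rhoH W) (fun x => (SpecialFibre.rho_L hF x).symm) (fun x => by
        subst hd
        exact rho_wt x)
      gtw := h2 (F.gamH W) (fun y => (SpecialFibre.gam_L hF y).symm) (fun y => by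
        subst hd
        exact gam_wt rfl y) }

end fibre

end Pool.Agent.Y150.HC
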