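import Pool.Agent.Y150.HC.Sing

/-!
# The standard conjecture of Hodge type and semistable degenerations (helper150)
-/

set_option autoImplicit false
set_option linter.unusedSectionVars false

open CategoryTheory AlgebraicGeometry

universe u v w u₁ v₁

namespace Pool.Agent.Y150.HC

open Pool.Agent.H914 Pool.Agent.H914.VarClass Pool.Agent.H914.VarClass.Obj
  Pool.Agent.H914.WeilCohomology Pool.Agent.Y150.Lift Pool.Agent.H447

attribute [local instance] modQ

section lowcodim

variable {k : Type u} [Field k] {𝒱 : VarClass k} {ops : CycleOps 𝒱}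
  {W : WeilCohomology.{u, v} ops} {X : 𝒱.Obj}

/-- Homological and numerical equivalence agree in codimension at most one. -/
lemma homEqNumIn_low {D : X.Cycles} (hD : X.IsCyc 1 D) (hX : HodgeIndex W X D)
    (hdim : 2 ≤ X.dim) {j : ℕ} (hj : j < 2) : HomEqNumIn W X j := by
  intro z hz h0
  have hmem : ∀ {i j : ℕ} {z : X.Cycles}, X.IsCyc j z → X.IsCyc (j + i) (divPow ops D i z) :=
    fun h => divPow_mem hD _ h
  obtain rfl | rfl : j = 0 ∨ j = 1 := by omega
  · obtain ⟨q, hq⟩ := cl_zero hD hX hz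
    have h5 : X.IsCyc X.dim (divPow ops D X.dim X.V.fundCycle) := by
      have := hmem (i := X.dim) X.V.fundCycle_mem
      rwa [zero_add] at this
    have h1 := h0 _ h5
    have h2 := deg_mul (W := W) (by omega) hz h5
    rw [h1, Rat.cast_zero, hq, smul_mul_assoc, one_mul, map_smul, W.tr_cl h5, smul_eq_mul] at h2
    rcases mul_eq_zero.1 h2.symm with h3 | h3
    · rw [hq, h3, zero_smul]
    · exact absurd h3 (by exact_mod_cast hX.1.ne')
  · by_contra hne
    have h1 : X.V.degCycle (divPow ops D (X.dim - 1) z) = 0 := by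
      have h5 : X.IsCyc X.dim (divPow ops D (X.dim - 1) z) := by
        have := hmem (i := X.dim - 1) hz
        rwa [show 1 + (X.dim - 1) = X.dim by omega] at this
      have h6 : X.IsCyc (X.dim - 1) (divPow ops D (X.dim - 1) X.V.fundCycle) := by
        have := hmem (i := X.dim - 1) X.V.fundCycle_mem
        rwa [zero_add] at this
      have h2 := deg_mul (W := W) (by omega) hz h6
      rw [h0 _ h6, Rat.cast_zero] at h2
      have h3 := W.tr_cl h5
      rw [cl_divPow] at h3
      have h4 : ∀ (i : ℕ), W.cl X z * (LinearMap.mulLeft W.K (W.cl X D) ^ i) 1 =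
          (LinearMap.mulLeft W.K (W.cl X D) ^ i) (W.cl X z) := by
        intro i
        induction i with
        | zero => exact mul_one _
        | succ i ih =>
          rw [pow_succ', Module.End.mul_apply, Module.End.mul_apply, LinearMap.mulLeft_apply,
            LinearMap.mulLeft_apply, ← ih, ← mul_assoc, ← mul_assoc,
            W.even_comm (p := 1) (W.cl_mem hz)]
      rw [cl_divPow, W.cl_fund, h4, h3] at h2
      exact_mod_cast h2.symm
    have h2 := hX.2 z hz h1 hne
    have h3 : X.IsCyc (X.dim - 1) (divPow ops D (X.dim - 2) z) := by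
      have := hmem (i := X.dim - 2) hz
      rwa [show 1 + (X.dim - 2) = X.dim - 1 by omega] at this
    rw [h0 _ h3] at h2
    exact lt_irrefl _ h2

end lowcodim

section fibre

variable {k : Type u} [Field k] {𝒱 : VarClass k} {ops : CycleOps 𝒱}
  {W : WeilCohomology.{u, v} ops} {d : ℕ} {F : SpecialFibre 𝒱 d}

/-- The lattices of the special fibre. -/
lemma fibPair {n : ℕ} (hd : d = n + 1) (hF : F.Compat W) :
    LatPair d (fL W F.Y F.D) (fbil W F.Y) (falg W F.Y) n (fL W F.Z F.E) (fbil W F.Z)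
      (falg W F.Z) (F.rhoH W) (F.gamH W) where
  Y := famRat F.isCyc_D F.dim_Y
  Z := famRat F.isCyc_E (fun t => by have := F.dim_Z t; omega)
  dim := hd
  rhoL x := (SpecialFibre.rho_L hF x).symm
  gamL y := (SpecialFibre.gam_L hF y).symm
  adj y x := SpecialFibre.fbil_gam y x
  rhoC l c hc := SpecialFibre.rho_falg hc
  gamC l c hc := SpecialFibre.gam_falg hc

lemma famNum_eq {j j' : ℕ} (hj : j + j' = d) {s t : F.Fam} (hs : F.IsFam j s) (ht : F.IsFam j' t) :
    (famNum F ops s t : W.K) = fbil W F.Y (F.clF W s) (F.clF W t) := by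
  rw [famNum, fbil_apply, Rat.cast_sum]
  refine Finset.sum_congr rfl (fun m _ => ?_)
  rw [deg_mul (W := W) (by rw [F.dim_Y]; exact hj) (hs m) (ht m)]
  rfl

lemma clF_famD (s : F.Fam) : F.clF W (famD F ops s) = fL W F.Y F.D (F.clF W s) := by
  funext m
  exact W.cl_mul _ _

lemma clF_famD_iter (k : ℕ) (s : F.Fam) :
    F.clF W ((famD F ops)^[k] s) = (fL W F.Y F.D ^ k) (F.clF W s) := by
  induction k with
  | zero => rfl
  | succ k ih => rw [Function.iterate_succ_apply', clF_famD, ih, pow_succ', Module.End.mul_apply]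

lemma clF_vert (s : F.Fam) : F.clF W (vert F ops s) = F.gamH W (F.rhoH W (F.clF W s)) := by
  have h1 : vert F ops s = gamC ops F (F.rho ops s) := rfl
  rw [h1, clF_gamC]
  congr 1
  funext t
  exact SpecialFibre.cl_rho s t

lemma agrees_iff (s : F.Fam) : Agrees F W s ↔ F.rhoH W (F.clF W s) = 0 := by
  constructor
  · intro h
    funext t
    rw [← SpecialFibre.cl_rho]
    exact h t
  · intro h t
    rw [HomTriv, SpecialFibre.cl_rho, h]
    rfl

lemma vert_isFam {l : ℕ} {a : F.Fam} (ha : F.IsFam l a) : F.IsFam (l + 1) (vert F ops a) := by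
  refine gamC_isFam (fun t => ?_)
  have h2 : F.rho ops a t = ops.pull (F.q t) (a (F.b t)) +
      (-1 : ℚ) • ops.pull (F.p t) (a (F.a t)) := by
    rw [SpecialFibre.rho, neg_smul, one_smul, sub_eq_add_neg]
  rw [h2]
  exact (ops.pull_mem _ (ha _)).add ((ops.pull_mem _ (ha _)).smul _)

lemma rho_isCyc {l : ℕ} {a : F.Fam} (ha : F.IsFam l a) (t : Fin F.s) :
    (F.Z t).IsCyc l (F.rho ops a t) := by
  have h2 : F.rho ops a t = ops.pull (F.q t) (a (F.b t)) +
      (-1 : ℚ) • ops.pull (F.p t) (a (F.a t)) := by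
    rw [SpecialFibre.rho, neg_smul, one_smul, sub_eq_add_neg]
  rw [h2]
  exact (ops.pull_mem _ (ha _)).add ((ops.pull_mem _ (ha _)).smul _)

end fibre

section model

variable {k₁ : Type u₁} [Field k₁] {𝒱₁ : VarClass k₁} {ops₁ : CycleOps 𝒱₁}
  {W₁ : WeilCohomology.{u₁, v₁} ops₁} {X : 𝒱₁.Obj} {D : X.Cycles}
  {k : Type u} [Field k] {𝒱 : VarClass k} {ops : CycleOps 𝒱} {W : WeilCohomology.{u, v} ops}
  {d : ℕ} {F : SpecialFibre 𝒱 d} {R : ℕ → X.Cycles → F.Fam → Prop}

lemma R_pow (h : IsDegeneration W₁ X D W F R) {j : ℕ} {z : X.Cycles} {s : F.Fam} (hs : R j z s)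
    (i : ℕ) : R (j + i) (divPow ops₁ D i z) ((famD F ops)^[i] s) := by
  induction i with
  | zero => exact hs
  | succ i ih =>
    rw [divPow, Function.iterate_succ_apply', Function.iterate_succ_apply', ← add_assoc]
    exact h.specializes.mul _ _ _ ih

/-- The dichotomy for the homologically primitive cycles. -/
lemma dichotomy (hd : 4 ≤ d) (h : IsDegeneration W₁ X D W F R)
    (hY : ∀ m, NumStandard W (F.Y m) (F.D m)) (hZ : ∀ t, NumStandard W (F.Z t) (F.E t))
    (hH : ∀ t l, 2 ≤ l → 2 * (l + 1) ≤ d → HomEqNumIn W (F.Z t) l) {j : ℕ} (hj : 2 * j ≤ d)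
    {z : X.Cycles} (hz : X.IsCyc j z) {s : F.Fam} (hs : R j z s)
    (hp : W₁.cl X (divPow ops₁ D (d - 2 * j + 1) z) = 0) :
    (∃ a : ∀ m, W.H (F.Y m), (∀ l, l + 1 = j → a ∈ falg W F.Y l) ∧ (j = 0 → a = 0) ∧
      ∀ l, ∀ y ∈ falg W F.Y l, fbil W F.Y (F.clF W s) y = fbil W F.Y (F.gamH W (F.rhoH W a)) y) ∨
    0 < (-1 : ℚ) ^ j * selfNum ops₁ X D j z := by
  obtain ⟨n, rfl⟩ : ∃ n, d = n + 1 := ⟨d - 1, by omega⟩
  have hdZ : ∀ t, (F.Z t).dim = n := fun t => by have := F.dim_Z t; omega
  have hP := fibPair (F := F) (W := W) rfl h.compat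
  have hsF := h.specializes.isFam _ _ _ hs
  have hrg : ∀ l, l + 1 = j → ∀ a ∈ falg W F.Y l, ∀ y ∈ falg W F.Z (n - j),
      fbil W F.Z (F.rhoH W (F.gamH W (F.rhoH W a))) y = 0 := by
    intro l hl a ha y hy
    obtain ⟨a₀, ha₀, rfl⟩ := SpecialFibre.exists_clF ha
    have h2 := (agrees_iff (W := W) _).1 (h.vertical l a₀ ha₀)
    rw [clF_vert] at h2
    rw [h2, map_zero, LinearMap.zero_apply]
  have hρ : ∀ y ∈ falg W F.Z (n - j), fbil W F.Z (F.rhoH W (F.clF W s)) y = 0 := by
    intro y hy
    rw [(agrees_iff (W := W) _).1 (h.specializes.agrees _ _ _ hs), map_zero,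
      LinearMap.zero_apply]
  have h6 : ∀ l, l + 1 = j → ∀ t ∈ falg W F.Y l,
      (∀ y ∈ falg W F.Z (n - l), fbil W F.Z (F.rhoH W t) y = 0) →
      fbil W F.Y ((fL W F.Y F.D ^ (n + 1 - 2 * j + 1)) (F.clF W s)) t = 0 := by
    intro l hl t ht ht0
    obtain ⟨t₀, ht₀, rfl⟩ := SpecialFibre.exists_clF ht
    have h2 : Agrees F W t₀ := by
      have h3 : ∀ i, NumTriv ops (F.Z i) l (F.rho ops t₀ i) := by
        refine (fam_numTriv (W := W) hdZ (by omega) (rho_isCyc ht₀)).1 ?_
        intro y hy
        have h4 : (fun i => W.cl _ (F.rho ops t₀ i)) = F.rhoH W (F.clF W t₀) :=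
          funext (fun i => SpecialFibre.cl_rho t₀ i)
        rw [h4]
        exact ht0 y hy
      intro i
      have h5 : HomEqNumIn W (F.Z i) l := by
        rcases Nat.lt_or_ge l 2 with hl2 | hl2
        · exact homEqNumIn_low (F.isCyc_E i) (hZ i).index (by rw [hdZ]; omega) hl2
        · exact hH i l hl2 (by omega)
      exact h5 _ (rho_isCyc ht₀ i) (h3 i)
    have h3 := R_pow h hs (n + 1 - 2 * j + 1)
    have h4 := h.conserves.trivial _ _ _ t₀ h3 hp (by
      rw [show n + 1 - (j + (n + 1 - 2 * j + 1)) = l by omega]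
      exact ht₀) h2
    have h5 := famNum_eq (W := W) (ops := ops) (j := j + (n + 1 - 2 * j + 1)) (j' := l)
      (by omega) (h.specializes.isFam _ _ _ h3) ht₀
    rw [h4, Rat.cast_zero, clF_famD_iter] at h5
    exact h5.symm
  rcases hP.num_hodge (famStd F.isCyc_D F.dim_Y hY) (famStd F.isCyc_E hdZ hZ) hj
      hrg (SpecialFibre.clF_mem hsF) hρ h6 with h1 | ⟨q, hq1, hq2⟩
  · exact Or.inl h1
  · right
    have h2 := R_pow h hs (n + 1 - 2 * j)
    have h3 := h.conserves.number j (j + (n + 1 - 2 * j)) _ _ _ _ (by omega) hs h2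
    have h4 := famNum_eq (W := W) (ops := ops) (j := j) (j' := j + (n + 1 - 2 * j)) (by omega) hsF
      (h.specializes.isFam _ _ _ h2)
    rw [clF_famD_iter, hq1] at h4
    have h5 : selfNum ops₁ X D j z = q := by
      rw [selfNum, h.dim_X, h3]
      exact_mod_cast h4
    rw [h5]
    exact hq2

/-- **Positivity up to numerical equivalence.** -/
theorem primitivePositive (hd : 4 ≤ d) (h : IsDegeneration W₁ X D W F R)
    (hY : ∀ m, NumStandard W (F.Y m) (F.D m)) (hZ : ∀ t, NumStandard W (F.Z t) (F.E t))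
    (hH : ∀ t l, 2 ≤ l → 2 * (l + 1) ≤ d → HomEqNumIn W (F.Z t) l) :
    PrimitivePositive W₁ X D := by
  intro j hj z hz hp hne
  rw [h.dim_X] at hj hp
  obtain ⟨s, hs⟩ := h.specializes.extends_ j z hz
  rcases dichotomy hd h hY hZ hH hj hz hs hp with ⟨a, -, -, ha⟩ | h1
  · exfalso
    apply hne
    intro w hw
    rw [h.dim_X] at hw
    obtain ⟨s', hs'⟩ := h.specializes.extends_ _ w hw
    have hsF' := h.specializes.isFam _ _ _ hs'
    have h2 := h.conserves.number j (d - j) z w s s' (by omega) hs hs'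
    have h3 := famNum_eq (W := W) (ops := ops) (j := j) (j' := d - j) (by omega)
      (h.specializes.isFam _ _ _ hs) hsF'
    rw [ha (d - j) _ (SpecialFibre.clF_mem hsF'), SpecialFibre.fbil_gam,
      (agrees_iff (W := W) _).1 (h.specializes.agrees _ _ _ hs'), map_zero] at h3
    rw [h2]
    exact_mod_cast h3
  · exact h1

/-- **The homological form.** -/
theorem hodgeType (hd : 4 ≤ d) (h : IsDegeneration W₁ X D W F R)
    (hY : ∀ m, NumStandard W (F.Y m) (F.D m)) (hZ : ∀ t, NumStandard W (F.Z t) (F.E t))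
    (hH : ∀ t l, 2 ≤ l → 2 * (l + 1) ≤ d → HomEqNumIn W (F.Z t) l)
    (hHY : ∀ m j, 2 ≤ j → 2 * j ≤ d → HomEqNumIn W (F.Y m) j) : HodgeType W₁ X D := by
  intro j hj z hz hp hne
  rw [h.dim_X] at hj hp
  obtain ⟨s, hs⟩ := h.specializes.extends_ j z hz
  have hsF := h.specializes.isFam _ _ _ hs
  have hHY' : ∀ m, HomEqNumIn W (F.Y m) j := by
    intro m
    rcases Nat.lt_or_ge j 2 with hl2 | hl2
    · exact homEqNumIn_low (F.isCyc_D m) (hY m).index (by rw [F.dim_Y]; omega) hl2
    · exact hHY m j hl2 hj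
  rcases dichotomy hd h hY hZ hH hj hz hs hp with ⟨a, ha1, ha0, ha⟩ | h1
  · exfalso
    apply hne
    rcases Nat.eq_zero_or_pos j with rfl | hj0
    · refine h.weight.zero z s hs (fun m => ?_)
      refine hHY' m _ (hsF m) ?_
      refine (fam_numTriv (W := W) F.dim_Y (by omega) hsF).1 ?_ m
      intro y hy
      have h2 := ha _ y hy
      rw [ha0 rfl, map_zero, map_zero, map_zero, LinearMap.zero_apply] at h2
      exact h2
    · obtain ⟨l, rfl⟩ : ∃ l, j = l + 1 := ⟨j - 1, by omega⟩
      obtain ⟨a₀, ha₀, rfl⟩ := SpecialFibre.exists_clF (ha1 l rfl)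
      refine h.weight.succ l z s a₀ hs ha₀ (fun m => ?_)
      have h3 : ∀ m, (F.Y m).IsCyc (l + 1) (s m - vert F ops a₀ m) := by
        intro m
        rw [sub_eq_add_neg, ← neg_one_smul ℚ]
        exact (hsF m).add ((vert_isFam ha₀ m).smul _)
      refine hHY' m _ (h3 m) ?_
      refine (fam_numTriv (W := W) F.dim_Y (by omega) h3).1 ?_ m
      intro y hy
      have h2 := ha _ y hy
      have h4 : (fun m => W.cl _ (s m - vert F ops a₀ m)) =
          F.clF W s - F.gamH W (F.rhoH W (F.clF W a₀)) := by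
        rw [← clF_vert (ops := ops)]
        funext m
        exact map_sub _ _ _
      rw [h4, map_sub, LinearMap.sub_apply, h2, sub_self]
  · rw [selfNum] at h1
    exact h1

end model

section generic

variable {k : Type u} [Field k] {𝒱 : VarClass k} {ops : CycleOps 𝒱}
  {W : WeilCohomology.{u, v} ops} {X : 𝒱.Obj} {D : X.Cycles}

lemma sub_isCyc {j : ℕ} {z z' : X.Cycles} (hz : X.IsCyc j z) (hz' : X.IsCyc j z') :
    X.IsCyc j (z - z') := by
  rw [sub_eq_add_neg, ← neg_one_smul ℚ]
  exact hz.add (hz'.smul _)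

lemma tr_L (hD : X.IsCyc 1 D) (i : ℕ) (a b : W.H X) :
    W.tr X ((LinearMap.mulLeft W.K (W.cl X D) ^ i) a * b) =
      W.tr X (a * (LinearMap.mulLeft W.K (W.cl X D) ^ i) b) := by
  induction i generalizing a b with
  | zero => rfl
  | succ i ih =>
    rw [pow_succ, Module.End.mul_apply, ih, LinearMap.mulLeft_apply,
      W.even_comm (p := 1) (W.cl_mem hD) a, mul_assoc, ← pow_succ, pow_succ',
      Module.End.mul_apply]
    rfl

/-- The hard Lefschetz theorem modulo numerical equivalence follows from the conjecture `A`. -/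
lemma lef_num (hD : X.IsCyc 1 D) (hA : LefschetzA W X D) {j : ℕ} (hj : 2 * j ≤ X.dim)
    {z : X.Cycles} (hz : X.IsCyc j z)
    (h0 : ∀ w, X.IsCyc j w → W.tr X ((LinearMap.mulLeft W.K (W.cl X D) ^ (X.dim - 2 * j))
      (W.cl X z) * W.cl X w) = 0) : NumTriv ops X j z := by
  rw [numTriv_iff (W := W) (by omega) hz]
  intro w hw
  obtain ⟨w', hw', h1⟩ := hA j hj w hw
  rw [← h1, cl_divPow, ← tr_L hD]
  exact h0 w' hw'

/-- The numerical form of the conjecture of Hodge type from the form for the homologically primitive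
cycles. -/
theorem numHodge_of (hD : X.IsCyc 1 D) (hA : LefschetzA W X D) (hP : PrimitivePositive W X D)
    {j : ℕ} (hj : 2 * j ≤ X.dim) : NumHodge ops X D j := by
  intro z hz hprim hne
  rcases Nat.eq_zero_or_pos j with rfl | hj0
  · refine hP 0 hj z hz ?_ hne
    have h1 := W.cl_mem (divPow_mem (ops := ops) hD (X.dim - 2 * 0 + 1) hz)
    rw [W_hbd _ (by omega)] at h1
    exact (Submodule.mem_bot _).1 h1
  obtain ⟨l, rfl⟩ : ∃ l, j = l + 1 := ⟨j - 1, by omega⟩
  set L := LinearMap.mulLeft W.K (W.cl X D) with hL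
  set m := X.dim - 2 * (l + 1) with hm
  have hc1 : X.IsCyc (X.dim - l) (divPow ops D (m + 1) z) := by
    have := divPow_mem (ops := ops) hD (m + 1) hz
    rwa [show l + 1 + (m + 1) = X.dim - l by omega] at this
  obtain ⟨y, hy, hyz⟩ := hA l (by omega) _ hc1
  rw [show X.dim - 2 * l = m + 2 by omega, cl_divPow, cl_divPow, ← hL] at hyz
  -- `y` is numerically trivial
  have hyn : NumTriv ops X l y := by
    apply lef_num (W := W) hD hA (by omega) hy
    intro w hw
    rw [show X.dim - 2 * l = m + 2 by omega, ← hL, hyz, ← cl_divPow]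
    refine (numTriv_iff (W := W) (by omega) hc1).1 ?_ w (by
      rw [show X.dim - (X.dim - l) = l by omega]; exact hw)
    rw [show X.dim - (l + 1) + 1 = X.dim - l by omega] at hprim
    exact hprim
  have hyn' := (numTriv_iff (W := W) (by omega) hy).1 hyn
  have hDy : X.IsCyc (l + 1) (ops.mul D y) := by
    rw [add_comm]
    exact ops.mul_mem hD hy
  set z' := z - ops.mul D y with hz'
  have hz'c : X.IsCyc (l + 1) z' := sub_isCyc hz hDy
  have hcl : W.cl X z' = W.cl X z - L (W.cl X y) := by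
    rw [hz', map_sub, W.cl_mul]; rfl
  have horth : ∀ w, X.IsCyc (X.dim - (l + 1)) w → W.tr X (L (W.cl X y) * W.cl X w) = 0 := by
    intro w hw
    have h1 := tr_L (W := W) hD 1 (W.cl X y) (W.cl X w)
    rw [pow_one] at h1
    rw [hL, h1, LinearMap.mulLeft_apply, ← W.cl_mul]
    refine hyn' _ ?_
    have := ops.mul_mem hD hw
    rwa [show 1 + (X.dim - (l + 1)) = X.dim - l by omega] at this
  have hprim' : HomTriv W X (divPow ops D (m + 1) z') := by
    rw [HomTriv, cl_divPow, hcl, map_sub, ← hL, ← Module.End.mul_apply (L ^ (m + 1)), ← pow_succ,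
      show m + 1 + 1 = m + 2 by ring, hyz, sub_self]
  have hne' : ¬ NumTriv ops X (l + 1) z' := by
    intro h1
    apply hne
    rw [numTriv_iff (W := W) (by omega) hz]
    rw [numTriv_iff (W := W) (by omega) hz'c] at h1
    intro w hw
    have h2 := h1 w hw
    rw [hcl, sub_mul, map_sub, horth w hw, sub_zero] at h2
    exact h2
  have h3 := hP (l + 1) hj z' hz'c hprim' hne'
  have h4 : selfNum ops X D (l + 1) z' = selfNum ops X D (l + 1) z := by
    have e1 := selfNum_eq (W := W) hD hj hz'c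
    have e2 := selfNum_eq (W := W) hD hj hz
    have hmz : X.IsCyc (X.dim - (l + 1)) (divPow ops D m z) := by
      have := divPow_mem (ops := ops) hD m hz
      rwa [show l + 1 + m = X.dim - (l + 1) by omega] at this
    have hmz' : X.IsCyc (X.dim - (l + 1)) (divPow ops D m z') := by
      have := divPow_mem (ops := ops) hD m hz'c
      rwa [show l + 1 + m = X.dim - (l + 1) by omega] at this
    have e3 : (selfNum ops X D (l + 1) z' : W.K) = (selfNum ops X D (l + 1) z : W.K) := by
      rw [e1, e2, ← hm, ← hL]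
      have h5 := horth _ hmz'
      rw [cl_divPow, ← hL] at h5
      have h6 := horth _ hmz
      rw [cl_divPow, ← hL] at h6
      have h7 : W.tr X (W.cl X z * (L ^ m) (L (W.cl X y))) = 0 := by
        rw [hL, ← tr_L hD m (W.cl X z), W.even_comm (p := X.dim - (l + 1)) (by
          rw [← cl_divPow]; exact W.cl_mem hmz)]
        exact h6
      conv_lhs => rw [hcl, sub_mul, map_sub]
      rw [← hcl, h5, sub_zero, hcl, map_sub, mul_sub, map_sub, h7, sub_zero]
    exact_mod_cast e3
  rw [h4] at h3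
  exact h3

/-- Conjecture D from the conjecture `A` and the homological form of the conjecture of Hodge
type. -/
theorem homEqNum_of (hD : X.IsCyc 1 D) (hA : LefschetzA W X D) (hH : HodgeType W X D) :
    HomEqNum W X := by
  set L := LinearMap.mulLeft W.K (W.cl X D) with hL
  -- codimension at most `n / 2`
  have low : ∀ j, 2 * j ≤ X.dim → ∀ z, X.IsCyc j z → NumTriv ops X j z → W.cl X z = 0 := by
    intro j
    induction j with
    | zero =>
      intro hj z hz hn
      by_contra hne
      have h1 := W.cl_mem (divPow_mem (ops := ops) hD (X.dim - 2 * 0 + 1) hz)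
      rw [W_hbd _ (by omega)] at h1
      have h2 := hH 0 hj z hz ((Submodule.mem_bot _).1 h1) hne
      rw [hn _ (by
        have := divPow_mem (ops := ops) hD (X.dim - 2 * 0) hz
        rwa [show 0 + (X.dim - 2 * 0) = X.dim - 0 by omega] at this), mul_zero] at h2
      exact lt_irrefl _ h2
    | succ l ih =>
      intro hj z hz hn
      by_contra hne
      set m := X.dim - 2 * (l + 1) with hm
      have hc1 : X.IsCyc (X.dim - l) (divPow ops D (m + 1) z) := by
        have := divPow_mem (ops := ops) hD (m + 1) hz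
        rwa [show l + 1 + (m + 1) = X.dim - l by omega] at this
      obtain ⟨y, hy, hyz⟩ := hA l (by omega) _ hc1
      rw [show X.dim - 2 * l = m + 2 by omega, cl_divPow, cl_divPow, ← hL] at hyz
      have hn' := (numTriv_iff (W := W) (by omega) hz).1 hn
      have hyn : NumTriv ops X l y := by
        apply lef_num (W := W) hD hA (by omega) hy
        intro w hw
        rw [show X.dim - 2 * l = m + 2 by omega, ← hL, hyz, hL, tr_L hD, ← cl_divPow]
        refine hn' _ ?_
        have := divPow_mem (ops := ops) hD (m + 1) hw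
        rwa [show l + (m + 1) = X.dim - (l + 1) by omega] at this
      have hy0 := ih (by omega) y hy hyn
      rw [hy0, map_zero] at hyz
      have h2 := hH (l + 1) hj z hz (by rw [cl_divPow, ← hL, ← hm]; exact hyz.symm) hne
      rw [hn _ (by
        have := divPow_mem (ops := ops) hD (X.dim - 2 * (l + 1)) hz
        rwa [show l + 1 + (X.dim - 2 * (l + 1)) = X.dim - (l + 1) by omega] at this),
        mul_zero] at h2
      exact lt_irrefl _ h2
  intro j hj z hz hn
  by_cases h2 : 2 * j ≤ X.dim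
  · exact low j h2 z hz hn
  obtain ⟨l, hl⟩ : ∃ l, j = X.dim - l ∧ l ≤ X.dim := ⟨X.dim - j, by omega, by omega⟩
  obtain ⟨rfl, hl2⟩ := hl
  obtain ⟨z', hz', h3⟩ := hA l (by omega) z hz
  have hn' : ∀ w, X.IsCyc l w → W.tr X (W.cl X z * W.cl X w) = 0 := by
    intro w hw
    refine (numTriv_iff (W := W) (by omega) hz).1 hn w (by
      rw [show X.dim - (X.dim - l) = l by omega]; exact hw)
  have h4 : NumTriv ops X l z' := by
    apply lef_num (W := W) hD hA (by omega) hz'
    intro w hw
    rw [← cl_divPow, h3]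
    exact hn' w hw
  rw [← h3, cl_divPow, low l (by omega) z' hz' h4, map_zero]

end generic

end Pool.Agent.Y150.HC
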