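import Pool.Agent.Y150.HC.Core
import Pool.Agent.H914R2.HLam

/-!
# Rational lattices modulo numerical equivalence (helper150)
-/

set_option autoImplicit false
set_option linter.unusedSectionVars false

open Finset

namespace Pool.Agent.Y150.HC

open Pool.Agent.H914

variable {K : Type*} [Field K] [CharZero K] {V : Type*} [AddCommGroup V] [Module K V]
  [Module ℚ V]

/-- The classes `C l` of codimension `l` in a space with an intersection form `B`, and with an
operator `L` of degree one. -/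
structure RatLat (n : ℕ) (L : Module.End K V) (B : V →ₗ[K] V →ₗ[K] K)
    (C : ℕ → Submodule ℚ V) : Prop where
  smul_eq : ∀ (q : ℚ) (x : V), q • x = (q : K) • x
  map_L : ∀ l, ∀ c ∈ C l, L c ∈ C (l + 1)
  rat : ∀ l l', ∀ c ∈ C l, ∀ d ∈ C l', ∃ s : ℚ, B c d = s
  self : ∀ a b, B (L a) b = B a (L b)
  deg : ∀ l l', l + l' ≠ n → ∀ c ∈ C l, ∀ d ∈ C l', B c d = 0
  symm : ∀ l l', ∀ c ∈ C l, ∀ d ∈ C l', B c d = B d c

namespace RatLat

variable {n : ℕ} {L : Module.End K V} {B : V →ₗ[K] V →ₗ[K] K} {C : ℕ → Submodule ℚ V}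

/-- The space of all classes. -/
def tot (C : ℕ → Submodule ℚ V) : Submodule ℚ V := ⨆ l, C l

lemma le_tot (C : ℕ → Submodule ℚ V) (l : ℕ) : C l ≤ tot C := le_iSup C l

lemma tot_induction {p : V → Prop} (h0 : p 0) (h1 : ∀ l, ∀ c ∈ C l, p c)
    (h2 : ∀ a b, p a → p b → p (a + b)) {x : V} (hx : x ∈ tot C) : p x :=
  Submodule.iSup_induction C (motive := p) hx h1 h0 h2

/-- A retraction of the coefficient field. -/
noncomputable def ret (K : Type*) [Field K] [CharZero K] : K →ₗ[ℚ] ℚ :=
  (LinearMap.exists_leftInverse_of_injective (Algebra.linearMap ℚ K)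
    (LinearMap.ker_eq_bot.2 (algebraMap ℚ K).injective)).choose

lemma ret_cast (q : ℚ) : ret K (q : K) = q := by
  have h := (LinearMap.exists_leftInverse_of_injective (Algebra.linearMap ℚ K)
    (LinearMap.ker_eq_bot.2 (algebraMap ℚ K).injective)).choose_spec
  have h2 := LinearMap.congr_fun h q
  rw [LinearMap.comp_apply, Algebra.linearMap_apply, eq_ratCast] at h2
  exact h2

variable (h : RatLat n L B C)

include h

lemma tot_L {x : V} (hx : x ∈ tot C) : L x ∈ tot C := by
  refine tot_induction (p := fun x => L x ∈ tot C) ?_ ?_ ?_ hx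
  · rw [map_zero]; exact Submodule.zero_mem _
  · intro l c hc
    exact le_tot C _ (h.map_L l c hc)
  · intro a b ha hb
    rw [map_add]; exact Submodule.add_mem _ ha hb

lemma tot_rat {x y : V} (hx : x ∈ tot C) (hy : y ∈ tot C) : ∃ s : ℚ, B x y = s := by
  refine tot_induction (p := fun x => ∃ s : ℚ, B x y = s) ⟨0, by simp⟩ ?_ ?_ hx
  · intro l c hc
    refine tot_induction (p := fun y => ∃ s : ℚ, B c y = s) ⟨0, by simp⟩ ?_ ?_ hy
    · intro l' d hd
      exact h.rat l l' c hc d hd
    · rintro a b ⟨s, hs⟩ ⟨s', hs'⟩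
      exact ⟨s + s', by rw [map_add, hs, hs', Rat.cast_add]⟩
  · rintro a b ⟨s, hs⟩ ⟨s', hs'⟩
    exact ⟨s + s', by rw [map_add, LinearMap.add_apply, hs, hs', Rat.cast_add]⟩

lemma tot_symm {x y : V} (hx : x ∈ tot C) (hy : y ∈ tot C) : B x y = B y x := by
  refine tot_induction (p := fun x => B x y = B y x) (by simp) ?_ ?_ hx
  · intro l c hc
    refine tot_induction (p := fun y => B c y = B y c) (by simp) ?_ ?_ hy
    · intro l' d hd
      exact h.symm l l' c hc d hd
    · intro a b ha hb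
      rw [map_add, map_add, LinearMap.add_apply, ha, hb]
  · intro a b ha hb
    rw [map_add, map_add, LinearMap.add_apply, ha, hb]

lemma ret_B {x y : V} (hx : x ∈ tot C) (hy : y ∈ tot C) : ((ret K (B x y) : ℚ) : K) = B x y := by
  obtain ⟨s, hs⟩ := h.tot_rat hx hy
  rw [hs, ret_cast]

omit h in
lemma ret_mul (q : ℚ) (y : K) : ret K ((q : K) * y) = q * ret K y := by
  rw [← Rat.smul_def, map_smul, smul_eq_mul]

/-- The rational intersection form. -/
noncomputable def form0 : tot C →ₗ[ℚ] tot C →ₗ[ℚ] ℚ :=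
  LinearMap.mk₂ ℚ (fun x y => ret K (B (x : V) (y : V)))
    (fun a a' b => by simp only [Submodule.coe_add, map_add, LinearMap.add_apply])
    (fun q a b => by
      rw [Submodule.coe_smul, h.smul_eq, map_smul, LinearMap.smul_apply, smul_eq_mul, ret_mul,
        smul_eq_mul])
    (fun a b b' => by simp only [Submodule.coe_add, map_add])
    (fun q a b => by
      rw [Submodule.coe_smul, h.smul_eq, map_smul, smul_eq_mul, ret_mul, smul_eq_mul])

lemma form0_apply (x y : tot C) : h.form0 x y = ret K (B (x : V) (y : V)) := rfl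

lemma form0_symm (x y : tot C) : h.form0 x y = h.form0 y x := by
  rw [form0_apply, form0_apply, h.tot_symm x.2 y.2]

/-- The numerically trivial classes. -/
noncomputable def rad : Submodule ℚ (tot C) := LinearMap.ker h.form0

lemma mem_rad {x : tot C} : x ∈ h.rad ↔ ∀ y, h.form0 x y = 0 := by
  rw [rad, LinearMap.mem_ker]
  constructor
  · intro hx y
    rw [hx]; rfl
  · intro hx
    exact LinearMap.ext hx

/-- The classes modulo numerical equivalence. -/
abbrev Num : Type _ := tot C ⧸ h.rad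

/-- The intersection form on the numerical classes. -/
noncomputable def form : h.Num →ₗ[ℚ] h.Num →ₗ[ℚ] ℚ :=
  h.rad.liftQ
    { toFun := fun x => h.rad.liftQ (h.form0 x) (by
        intro y hy
        rw [LinearMap.mem_ker, h.form0_symm]
        exact h.mem_rad.1 hy x)
      map_add' := fun x y => by
        apply Submodule.linearMap_qext
        apply LinearMap.ext
        intro z
        simp
      map_smul' := fun q x => by
        apply Submodule.linearMap_qext
        apply LinearMap.ext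
        intro z
        simp }
    (by
      intro x hx
      rw [LinearMap.mem_ker]
      apply Submodule.linearMap_qext
      apply LinearMap.ext
      intro z
      simpa using h.mem_rad.1 hx z)

lemma form_mk (x y : tot C) : h.form (h.rad.mkQ x) (h.rad.mkQ y) = h.form0 x y := rfl

lemma form_nondeg {x : h.Num} (hx : ∀ y, h.form x y = 0) : x = 0 := by
  obtain ⟨a, rfl⟩ := h.rad.mkQ_surjective x
  rw [Submodule.mkQ_apply, Submodule.Quotient.mk_eq_zero, mem_rad]
  intro y
  exact hx (h.rad.mkQ y)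

/-- The Lefschetz operator on the numerical classes. -/
noncomputable def LN : Module.End ℚ h.Num :=
  h.rad.mapQ h.rad
    { toFun := fun x => (⟨L (x : V), h.tot_L x.2⟩ : tot C)
      map_add' := fun x y => by
        apply Subtype.ext
        exact map_add L _ _
      map_smul' := fun q x => by
        apply Subtype.ext
        change L (q • (x : V)) = q • L (x : V)
        rw [h.smul_eq, h.smul_eq, map_smul] }
    (by
      intro x hx
      rw [Submodule.mem_comap, mem_rad]
      intro y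
      have h1 := h.mem_rad.1 hx ⟨L (y : V), h.tot_L y.2⟩
      rw [form0_apply] at h1 ⊢
      rw [← h1, ← h.self]
      rfl)

lemma LN_mk {x : V} (hx : x ∈ tot C) :
    h.LN (h.rad.mkQ ⟨x, hx⟩) = h.rad.mkQ ⟨L x, h.tot_L hx⟩ := rfl

lemma tot_L_pow {x : V} (hx : x ∈ tot C) (k : ℕ) : (L ^ k) x ∈ tot C := by
  induction k with
  | zero => exact hx
  | succ k ih =>
    rw [pow_succ', Module.End.mul_apply]
    exact h.tot_L ih

lemma LN_pow_mk {x : V} (hx : x ∈ tot C) (k : ℕ) :
    (h.LN ^ k) (h.rad.mkQ ⟨x, hx⟩) = h.rad.mkQ ⟨(L ^ k) x, h.tot_L_pow hx k⟩ := by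
  induction k with
  | zero => rfl
  | succ k ih =>
    rw [pow_succ', Module.End.mul_apply, ih, LN_mk]
    congr 1
    apply Subtype.ext
    change L ((L ^ k) x) = (L ^ (k + 1)) x
    rw [pow_succ', Module.End.mul_apply]

/-- The numerical classes of codimension `l`. -/
noncomputable def CN (l : ℕ) : Submodule ℚ h.Num :=
  ((C l).comap (tot C).subtype).map h.rad.mkQ

lemma mem_CN {l : ℕ} {x : h.Num} : x ∈ h.CN l ↔ ∃ c, ∃ hc : c ∈ C l,
    h.rad.mkQ ⟨c, le_tot C l hc⟩ = x := by
  rw [CN, Submodule.mem_map]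
  constructor
  · rintro ⟨y, hy, rfl⟩
    exact ⟨(y : V), hy, rfl⟩
  · rintro ⟨c, hc, rfl⟩
    exact ⟨⟨c, le_tot C l hc⟩, hc, rfl⟩

/-- The grading, with the doubled degrees. -/
noncomputable def grN (i : ℕ) : Submodule ℚ h.Num := if Even i then h.CN (i / 2) else ⊥

lemma grN_two (l : ℕ) : h.grN (2 * l) = h.CN l := by
  rw [grN, if_pos (even_two_mul l)]
  congr 1
  omega

lemma grN_odd {i : ℕ} (hi : ¬ Even i) : h.grN i = ⊥ := by rw [grN, if_neg hi]

lemma form_deg {l l' : ℕ} (hl : l + l' ≠ n) {x y : h.Num} (hx : x ∈ h.CN l) (hy : y ∈ h.CN l') :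
    h.form x y = 0 := by
  obtain ⟨c, hc, rfl⟩ := h.mem_CN.1 hx
  obtain ⟨d, hd, rfl⟩ := h.mem_CN.1 hy
  rw [form_mk, form0_apply]
  rw [show B ((⟨c, le_tot C l hc⟩ : tot C) : V) ((⟨d, le_tot C l' hd⟩ : tot C) : V) = 0 from
    h.deg l l' hl c hc d hd, map_zero]

lemma form_symm (x y : h.Num) : h.form x y = h.form y x := by
  obtain ⟨a, rfl⟩ := h.rad.mkQ_surjective x
  obtain ⟨b, rfl⟩ := h.rad.mkQ_surjective y
  rw [form_mk, form_mk, form0_symm]

lemma form_L (x y : h.Num) : h.form (h.LN x) y = h.form x (h.LN y) := by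
  obtain ⟨a, rfl⟩ := h.rad.mkQ_surjective x
  obtain ⟨b, rfl⟩ := h.rad.mkQ_surjective y
  change ret K (B (L (a : V)) (b : V)) = ret K (B (a : V) (L (b : V)))
  rw [h.self]

lemma iSup_CN : ⨆ l, h.CN l = ⊤ := by
  rw [eq_top_iff]
  rintro x -
  obtain ⟨⟨a, ha⟩, rfl⟩ := h.rad.mkQ_surjective x
  have key : ∀ a ∈ tot C, ∃ ha : a ∈ tot C, h.rad.mkQ ⟨a, ha⟩ ∈ ⨆ l, h.CN l := by
    intro a ha
    refine tot_induction (C := C) (p := fun a => ∃ ha : a ∈ tot C, h.rad.mkQ ⟨a, ha⟩ ∈ ⨆ l, h.CN l)
      ?_ ?_ ?_ ha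
    · refine ⟨Submodule.zero_mem _, ?_⟩
      have : (⟨0, Submodule.zero_mem _⟩ : tot C) = 0 := rfl
      rw [this, map_zero]
      exact Submodule.zero_mem _
    · intro l c hc
      exact ⟨le_tot C l hc, Submodule.mem_iSup_of_mem l (h.mem_CN.2 ⟨c, hc, rfl⟩)⟩
    · rintro a b ⟨ha, ha'⟩ ⟨hb, hb'⟩
      refine ⟨Submodule.add_mem _ ha hb, ?_⟩
      have : (⟨a + b, Submodule.add_mem _ ha hb⟩ : tot C) = ⟨a, ha⟩ + ⟨b, hb⟩ := rfl
      rw [this, map_add]
      exact Submodule.add_mem _ ha' hb'
  exact (key a ha).2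

lemma iSup_grN : ⨆ i, h.grN i = ⊤ := by
  rw [eq_top_iff, ← h.iSup_CN]
  refine iSup_le (fun l => ?_)
  rw [← h.grN_two l]
  exact le_iSup h.grN (2 * l)

/-- A class which is orthogonal to all classes of the complementary codimension is zero. -/
lemma eq_zero_of {l : ℕ} {x : h.Num} (hx : x ∈ h.CN l) (h0 : ∀ y ∈ h.CN (n - l), h.form x y = 0)
    : x = 0 := by
  apply h.form_nondeg
  intro y
  have hy : y ∈ ⨆ l, h.CN l := by rw [h.iSup_CN]; trivial
  refine Submodule.iSup_induction h.CN (motive := fun y => h.form x y = 0) hy ?_ (map_zero _) ?_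
  · intro l' y hy
    by_cases hl : l + l' = n
    · obtain rfl : l' = n - l := by omega
      exact h0 y hy
    · exact h.form_deg hl hx hy
  · intro a b ha hb
    rw [map_add, ha, hb, add_zero]

lemma internal : DirectSum.IsInternal h.grN := by
  apply DirectSum.isInternal_submodule_of_iSupIndep_of_iSup_eq_top _ h.iSup_grN
  rw [iSupIndep_def]
  intro i
  rw [Submodule.disjoint_def]
  intro x hx hx'
  by_cases hi : Even i
  swap
  · rw [h.grN_odd hi] at hx
    exact (Submodule.mem_bot _).1 hx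
  obtain ⟨l, rfl⟩ : ∃ l, i = 2 * l := by
    obtain ⟨r, hr⟩ := hi
    exact ⟨r, by omega⟩
  rw [h.grN_two] at hx
  apply h.eq_zero_of hx
  intro y hy
  by_cases hln : l ≤ n
  swap
  · exact h.form_deg (by omega) hx hy
  have key : (⨆ j, ⨆ (_ : j ≠ 2 * l), h.grN j) ≤ LinearMap.ker (h.form.flip y) := by
    refine iSup_le (fun j => iSup_le (fun hj => ?_))
    intro z hz
    rw [LinearMap.mem_ker, LinearMap.flip_apply]
    by_cases hj2 : Even j
    · obtain ⟨l', rfl⟩ : ∃ l', j = 2 * l' := by
        obtain ⟨r, hr⟩ := hj2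
        exact ⟨r, by omega⟩
      rw [h.grN_two] at hz
      exact h.form_deg (by omega) hz hy
    · rw [h.grN_odd hj2] at hz
      rw [(Submodule.mem_bot _).1 hz, map_zero, LinearMap.zero_apply]
  have h1 := key hx'
  rwa [LinearMap.mem_ker, LinearMap.flip_apply] at h1

lemma finite [Module.Finite K V] : Module.Finite ℚ h.Num := by
  have hfg : (Submodule.span K (tot C : Set V)).FG := Submodule.FG.of_finite
  rw [Submodule.fg_span_iff_fg_span_finset_subset] at hfg
  obtain ⟨S, hS1, hS2⟩ := hfg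
  let ev : h.Num →ₗ[ℚ] (S → ℚ) := LinearMap.pi fun s =>
    h.form.flip (h.rad.mkQ ⟨(s : V), hS1 s.2⟩)
  have hev : Function.Injective ev := by
    rw [← LinearMap.ker_eq_bot, LinearMap.ker_eq_bot']
    intro x hx
    obtain ⟨⟨a, ha⟩, rfl⟩ := h.rad.mkQ_surjective x
    apply h.form_nondeg
    intro y
    obtain ⟨⟨b, hb⟩, rfl⟩ := h.rad.mkQ_surjective y
    rw [form_mk, form0_apply]
    change ret K (B a b) = 0
    have h1 : b ∈ Submodule.span K (S : Set V) := by
      rw [← hS2]
      exact Submodule.subset_span hb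
    have h2 : ∀ y ∈ Submodule.span K (S : Set V), B a y = 0 := by
      intro y hy
      induction hy using Submodule.span_induction with
      | mem y hy =>
        have h3 := congrFun hx ⟨y, hy⟩
        have h4 : ret K (B a y) = 0 := h3
        rw [← h.ret_B ha (hS1 hy), h4, Rat.cast_zero]
      | zero => rw [map_zero]
      | add y z _ _ h3 h4 => rw [map_add, h3, h4, add_zero]
      | smul c y _ h3 => rw [map_smul, h3, smul_zero]
    rw [h2 b h1, map_zero]
  exact Module.Finite.of_injective ev hev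

end RatLat

end Pool.Agent.Y150.HC
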