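import Pool.Agent.Y150.HC.NumLat

/-!
# Hodge-Riemann structures modulo numerical equivalence (helper150)
-/

set_option autoImplicit false
set_option linter.unusedSectionVars false

open Finset

namespace Pool.Agent.Y150.HC

open Pool.Agent.H914

variable {K : Type*} [Field K] [CharZero K] {V : Type*} [AddCommGroup V] [Module K V]
  [Module ℚ V]

/-- The numerical standard conjectures for a rational lattice. -/
structure NumStd (n : ℕ) (L : Module.End K V) (B : V →ₗ[K] V →ₗ[K] K)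
    (C : ℕ → Submodule ℚ V) : Prop where
  lef : ∀ l, 2 * l ≤ n → ∀ c ∈ C (n - l), ∃ c' ∈ C l, ∀ d ∈ C l,
    B ((L ^ (n - 2 * l)) c' - c) d = 0
  hodge : ∀ l, 2 * l ≤ n → ∀ c ∈ C l,
    (∀ l', l' + 1 = l → ∀ d ∈ C l', B ((L ^ (n - 2 * l + 1)) c) d = 0) →
    (∃ d ∈ C (n - l), B c d ≠ 0) → ∃ s : ℚ, B c ((L ^ (n - 2 * l)) c) = s ∧ 0 < (-1) ^ l * s

namespace RatLat

variable {n : ℕ} {L : Module.End K V} {B : V →ₗ[K] V →ₗ[K] K} {C : ℕ → Submodule ℚ V}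
  (h : RatLat n L B C) (hN : NumStd n L B C)

include h

lemma pow_mem {l : ℕ} {c : V} (hc : c ∈ C l) (k : ℕ) : (L ^ k) c ∈ C (l + k) := by
  induction k with
  | zero => exact hc
  | succ k ih =>
    rw [pow_succ', Module.End.mul_apply, ← add_assoc]
    exact h.map_L _ _ ih

lemma self_pow (k : ℕ) (a b : V) : B ((L ^ k) a) b = B a ((L ^ k) b) := by
  induction k generalizing a b with
  | zero => rfl
  | succ k ih =>
    rw [pow_succ, Module.End.mul_apply, ih, h.self, ← Module.End.mul_apply, ← pow_succ',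
      ← pow_succ]

lemma mk_eq_zero {l : ℕ} {c : V} (hc : c ∈ C l) (h0 : ∀ d ∈ C (n - l), B c d = 0) :
    h.rad.mkQ ⟨c, le_tot C l hc⟩ = 0 := by
  apply h.eq_zero_of (h.mem_CN.2 ⟨c, hc, rfl⟩)
  intro y hy
  obtain ⟨d, hd, rfl⟩ := h.mem_CN.1 hy
  rw [form_mk, form0_apply]
  change ret K (B c d) = 0
  rw [h0 d hd, map_zero]

lemma B_eq_zero {l : ℕ} {c : V} (hc : c ∈ C l) (h0 : h.rad.mkQ ⟨c, le_tot C l hc⟩ = 0) {l' : ℕ}
    {d : V} (hd : d ∈ C l') : B c d = 0 := by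
  have h1 : h.form (h.rad.mkQ ⟨c, le_tot C l hc⟩) (h.rad.mkQ ⟨d, le_tot C l' hd⟩) = 0 := by
    rw [h0, map_zero, LinearMap.zero_apply]
  rw [form_mk, form0_apply] at h1
  have h2 := h.ret_B (le_tot C l hc) (le_tot C l' hd)
  rw [← h2]
  change ret K (B c d) = 0 at h1
  rw [h1, Rat.cast_zero]

lemma form_cast {l l' : ℕ} {c d : V} (hc : c ∈ C l) (hd : d ∈ C l') :
    ((h.form (h.rad.mkQ ⟨c, le_tot C l hc⟩) (h.rad.mkQ ⟨d, le_tot C l' hd⟩) : ℚ) : K) = B c d := by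
  rw [form_mk, form0_apply]
  exact h.ret_B (le_tot C l hc) (le_tot C l' hd)

include hN in
lemma algN : AlgPart h.grN n h.LN h.form (fun l => (h.CN l : Set h.Num)) where
  sub l c hc := by rw [h.grN_two]; exact hc
  zero l := (h.CN l).zero_mem
  add l c hc d hd := (h.CN l).add_mem hc hd
  smul l q c hc := by
    rw [Rat.cast_id]
    exact (h.CN l).smul_mem q hc
  map_L l c hc := by
    obtain ⟨a, ha, rfl⟩ := h.mem_CN.1 hc
    exact h.mem_CN.2 ⟨L a, h.map_L l a ha, rfl⟩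
  rat l l' c hc d hd := ⟨h.form c d, (Rat.cast_id _).symm⟩
  hl l hl c hc := by
    obtain ⟨a, ha, rfl⟩ := h.mem_CN.1 hc
    obtain ⟨a', ha', h1⟩ := hN.lef l hl a ha
    refine ⟨h.rad.mkQ ⟨a', le_tot C l ha'⟩, h.mem_CN.2 ⟨a', ha', rfl⟩, ?_⟩
    rw [h.LN_pow_mk, ← sub_eq_zero, ← map_sub]
    have h2 : (L ^ (n - 2 * l)) a' - a ∈ C (n - l) := by
      refine Submodule.sub_mem _ ?_ ha
      have := h.pow_mem ha' (n - 2 * l)
      rwa [show l + (n - 2 * l) = n - l by omega] at this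
    exact h.mk_eq_zero h2 (by
      rw [show n - (n - l) = l by omega]
      exact h1)
  pos l hl c hc hp hc0 := by
    obtain ⟨a, ha, rfl⟩ := h.mem_CN.1 hc
    rw [h.LN_pow_mk] at hp
    have ha1 := h.pow_mem ha (n - 2 * l + 1)
    obtain ⟨s, hs1, hs2⟩ := hN.hodge l hl a ha (fun l' _ d hd => h.B_eq_zero ha1 hp hd) (by
      by_contra hcon
      push Not at hcon
      exact hc0 (h.mk_eq_zero ha hcon))
    refine ⟨s, ?_, hs2⟩
    rw [Rat.cast_id, h.LN_pow_mk]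
    have h3 := h.form_cast ha (h.pow_mem ha (n - 2 * l))
    rw [hs1] at h3
    exact_mod_cast h3
  self a b := h.form_L a b
  deg i j a ha b hb hij := by
    by_cases hi : Even i
    · by_cases hj : Even j
      · obtain ⟨l, rfl⟩ : ∃ l, i = 2 * l := by
          obtain ⟨r, hr⟩ := hi
          exact ⟨r, by omega⟩
        obtain ⟨l', rfl⟩ : ∃ l', j = 2 * l' := by
          obtain ⟨r, hr⟩ := hj
          exact ⟨r, by omega⟩
        rw [h.grN_two] at ha hb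
        exact h.form_deg (by omega) ha hb
      · rw [h.grN_odd hj] at hb
        rw [(Submodule.mem_bot _).1 hb, map_zero]
    · rw [h.grN_odd hi] at ha
      rw [(Submodule.mem_bot _).1 ha, map_zero, LinearMap.zero_apply]
  symm l a _ b := h.form_symm a b

lemma CN_bot {l : ℕ} (hl : n < l) {x : h.Num} (hx : x ∈ h.CN l) : x = 0 :=
  h.eq_zero_of hx (fun y hy => h.form_deg (by omega) hx hy)

lemma grN_bot (i : ℕ) (hi : 2 * n + 1 ≤ i) : h.grN i = ⊥ := by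
  by_cases hi2 : Even i
  · obtain ⟨l, rfl⟩ : ∃ l, i = 2 * l := by
      obtain ⟨r, hr⟩ := hi2
      exact ⟨r, by omega⟩
    rw [eq_bot_iff, h.grN_two]
    intro x hx
    rw [Submodule.mem_bot]
    exact h.CN_bot (by omega) hx
  · exact h.grN_odd hi2

lemma LN_isHom : IsHom h.grN 2 h.LN := by
  intro i a ha
  by_cases hi : 0 ≤ i
  · lift i to ℕ using hi
    rw [grZ_natCast] at ha
    rw [show ((i : ℤ) + 2) = ((i + 2 : ℕ) : ℤ) by push_cast; rfl, grZ_natCast]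
    by_cases hi2 : Even i
    · obtain ⟨l, rfl⟩ : ∃ l, i = 2 * l := by
        obtain ⟨r, hr⟩ := hi2
        exact ⟨r, by omega⟩
      rw [h.grN_two] at ha
      rw [show 2 * l + 2 = 2 * (l + 1) by ring, h.grN_two]
      obtain ⟨c, hc, rfl⟩ := h.mem_CN.1 ha
      exact h.mem_CN.2 ⟨L c, h.map_L l c hc, rfl⟩
    · rw [h.grN_odd hi2] at ha
      rw [(Submodule.mem_bot _).1 ha, map_zero]
      exact Submodule.zero_mem _
  · rw [grZ_of_neg (by omega)] at ha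
    rw [(Submodule.mem_bot _).1 ha, map_zero]
    exact Submodule.zero_mem _

lemma form_L_pow (k : ℕ) (x y : h.Num) : h.form ((h.LN ^ k) x) y = h.form x ((h.LN ^ k) y) := by
  induction k generalizing x y with
  | zero => rfl
  | succ k ih =>
    rw [pow_succ, Module.End.mul_apply, ih, h.form_L, ← Module.End.mul_apply, ← pow_succ',
      ← pow_succ]

include hN in
lemma hardN : HardLef h.grN n h.LN := by
  intro i hi
  by_cases hi2 : Even i
  swap
  · refine ⟨fun a ha _ => ?_, fun b hb => ⟨0, Submodule.zero_mem _, ?_⟩⟩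
    · rw [h.grN_odd hi2] at ha
      exact (Submodule.mem_bot _).1 ha
    · have : ¬ Even (2 * n - i) := by
        intro h1
        apply hi2
        obtain ⟨r, hr⟩ := h1
        exact ⟨n - r, by omega⟩
      rw [h.grN_odd this] at hb
      rw [(Submodule.mem_bot _).1 hb, map_zero]
  obtain ⟨l, rfl⟩ : ∃ l, i = 2 * l := by
    obtain ⟨r, hr⟩ := hi2
    exact ⟨r, by omega⟩
  have hsurj : ∀ b ∈ h.CN (n - l), ∃ a ∈ h.CN l, (h.LN ^ (n - 2 * l)) a = b :=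
    fun b hb => (h.algN hN).hl l hi b hb
  constructor
  · intro a ha h0
    rw [h.grN_two] at ha
    apply h.eq_zero_of ha
    intro y hy
    obtain ⟨y', _, rfl⟩ := hsurj y hy
    rw [← h.form_L_pow, h0, map_zero, LinearMap.zero_apply]
  · intro b hb
    rw [show 2 * n - 2 * l = 2 * (n - l) by omega, h.grN_two] at hb
    obtain ⟨a, ha, hab⟩ := hsurj b hb
    exact ⟨a, by rw [h.grN_two]; exact ha, hab⟩

lemma wtN {i : ℕ} {a : h.Num} (ha : a ∈ h.grN i) : wt h.internal n a = ((i : ℚ) - n) • a := by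
  rw [wt, scal_apply h.internal _ ha, node, Rat.cast_id]

include hN in
lemma exists_lamN [Module.Finite K V] : ∃ Lam : Module.End ℚ h.Num,
    Sl2 (wt h.internal n) h.LN Lam ∧
      ∀ i ≤ n, ∀ a ∈ h.grN i, (h.LN ^ (n - i + 1)) a = 0 → Lam a = 0 := by
  have := h.finite
  obtain ⟨Lam, t, -, hval⟩ := exists_sl2 h.internal h.LN_isHom h.grN_bot (h.hardN hN)
  refine ⟨Lam, t, fun i hi a ha hp => ?_⟩
  have := hval i hi a ha hp 0 (by omega)
  simpa using this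

end RatLat

open RatLat

variable {V' : Type*} [AddCommGroup V'] [Module K V'] [Module ℚ V']

/-- Two rational lattices joined by a restriction and a Gysin map. -/
structure LatPair (n : ℕ) (L : Module.End K V) (B : V →ₗ[K] V →ₗ[K] K) (C : ℕ → Submodule ℚ V)
    (n' : ℕ) (L' : Module.End K V') (B' : V' →ₗ[K] V' →ₗ[K] K) (C' : ℕ → Submodule ℚ V')
    (ρ : V →ₗ[K] V') (γ : V' →ₗ[K] V) : Prop where
  Y : RatLat n L B C
  Z : RatLat n' L' B' C'
  dim : n = n' + 1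
  rhoL : ∀ x, L' (ρ x) = ρ (L x)
  gamL : ∀ y, L (γ y) = γ (L' y)
  adj : ∀ y x, B (γ y) x = B' y (ρ x)
  rhoC : ∀ l, ∀ c ∈ C l, ρ c ∈ C' l
  gamC : ∀ l, ∀ c ∈ C' l, γ c ∈ C (l + 1)

namespace LatPair

variable {n : ℕ} {L : Module.End K V} {B : V →ₗ[K] V →ₗ[K] K} {C : ℕ → Submodule ℚ V}
  {n' : ℕ} {L' : Module.End K V'} {B' : V' →ₗ[K] V' →ₗ[K] K} {C' : ℕ → Submodule ℚ V'}
  {ρ : V →ₗ[K] V'} {γ : V' →ₗ[K] V} (h : LatPair n L B C n' L' B' C' ρ γ)

include h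

lemma rho_tot {x : V} (hx : x ∈ tot C) : ρ x ∈ tot C' := by
  refine tot_induction (p := fun x => ρ x ∈ tot C') ?_ ?_ ?_ hx
  · rw [map_zero]; exact Submodule.zero_mem _
  · intro l c hc
    exact le_tot C' _ (h.rhoC l c hc)
  · intro a b ha hb
    rw [map_add]; exact Submodule.add_mem _ ha hb

lemma gam_tot {x : V'} (hx : x ∈ tot C') : γ x ∈ tot C := by
  refine tot_induction (p := fun x => γ x ∈ tot C) ?_ ?_ ?_ hx
  · rw [map_zero]; exact Submodule.zero_mem _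
  · intro l c hc
    exact le_tot C _ (h.gamC l c hc)
  · intro a b ha hb
    rw [map_add]; exact Submodule.add_mem _ ha hb

/-- Restriction on the numerical classes. -/
noncomputable def rhoN : h.Y.Num →ₗ[ℚ] h.Z.Num :=
  h.Y.rad.mapQ h.Z.rad
    { toFun := fun x => (⟨ρ (x : V), h.rho_tot x.2⟩ : tot C')
      map_add' := fun x y => by
        apply Subtype.ext
        exact map_add ρ _ _
      map_smul' := fun q x => by
        apply Subtype.ext
        change ρ (q • (x : V)) = q • ρ (x : V)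
        rw [h.Y.smul_eq, h.Z.smul_eq, map_smul] }
    (by
      intro x hx
      rw [Submodule.mem_comap, RatLat.mem_rad]
      intro y
      have h1 := h.Y.mem_rad.1 hx ⟨γ (y : V'), h.gam_tot y.2⟩
      rw [h.Y.form0_symm, form0_apply] at h1
      rw [h.Z.form0_symm, form0_apply, ← h1, h.adj]
      rfl)

/-- The Gysin map on the numerical classes. -/
noncomputable def gamN : h.Z.Num →ₗ[ℚ] h.Y.Num :=
  h.Z.rad.mapQ h.Y.rad
    { toFun := fun x => (⟨γ (x : V'), h.gam_tot x.2⟩ : tot C)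
      map_add' := fun x y => by
        apply Subtype.ext
        exact map_add γ _ _
      map_smul' := fun q x => by
        apply Subtype.ext
        change γ (q • (x : V')) = q • γ (x : V')
        rw [h.Y.smul_eq, h.Z.smul_eq, map_smul] }
    (by
      intro x hx
      rw [Submodule.mem_comap, RatLat.mem_rad]
      intro y
      have h1 := h.Z.mem_rad.1 hx ⟨ρ (y : V), h.rho_tot y.2⟩
      rw [form0_apply] at h1 ⊢
      rw [← h1, ← h.adj]
      rfl)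

lemma rhoN_mk {x : V} (hx : x ∈ tot C) :
    h.rhoN (h.Y.rad.mkQ ⟨x, hx⟩) = h.Z.rad.mkQ ⟨ρ x, h.rho_tot hx⟩ := rfl

lemma gamN_mk {x : V'} (hx : x ∈ tot C') :
    h.gamN (h.Z.rad.mkQ ⟨x, hx⟩) = h.Y.rad.mkQ ⟨γ x, h.gam_tot hx⟩ := rfl

lemma adjN (y : h.Z.Num) (x : h.Y.Num) : h.Y.form (h.gamN y) x = h.Z.form y (h.rhoN x) := by
  obtain ⟨⟨a, ha⟩, rfl⟩ := h.Y.rad.mkQ_surjective x
  obtain ⟨⟨b, hb⟩, rfl⟩ := h.Z.rad.mkQ_surjective y
  rw [gamN_mk, rhoN_mk]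
  change ret K (B (γ b) a) = ret K (B' b (ρ a))
  rw [h.adj]

lemma rhoLN (x : h.Y.Num) : h.Z.LN (h.rhoN x) = h.rhoN (h.Y.LN x) := by
  obtain ⟨⟨a, ha⟩, rfl⟩ := h.Y.rad.mkQ_surjective x
  rw [rhoN_mk, RatLat.LN_mk, RatLat.LN_mk, rhoN_mk]
  congr 1
  exact Subtype.ext (h.rhoL a)

lemma gamLN (x : h.Z.Num) : h.Y.LN (h.gamN x) = h.gamN (h.Z.LN x) := by
  obtain ⟨⟨a, ha⟩, rfl⟩ := h.Z.rad.mkQ_surjective x
  rw [gamN_mk, RatLat.LN_mk, RatLat.LN_mk, gamN_mk]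
  congr 1
  exact Subtype.ext (h.gamL a)

lemma rhoCN (l : ℕ) (x : h.Y.Num) (hx : x ∈ h.Y.CN l) : h.rhoN x ∈ h.Z.CN l := by
  obtain ⟨c, hc, rfl⟩ := h.Y.mem_CN.1 hx
  exact h.Z.mem_CN.2 ⟨ρ c, h.rhoC l c hc, rfl⟩

lemma gamCN (l : ℕ) (x : h.Z.Num) (hx : x ∈ h.Z.CN l) : h.gamN x ∈ h.Y.CN (l + 1) := by
  obtain ⟨c, hc, rfl⟩ := h.Z.mem_CN.1 hx
  exact h.Y.mem_CN.2 ⟨γ c, h.gamC l c hc, rfl⟩

lemma rho_wtN (x : h.Y.Num) :
    wt h.Z.internal n' (h.rhoN x) - h.rhoN (wt h.Y.internal n x) = h.rhoN x := by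
  have h1 : (wt h.Z.internal n') ∘ₗ h.rhoN - h.rhoN ∘ₗ (wt h.Y.internal n) = h.rhoN := by
    apply gr_ext h.Y.internal
    intro i a ha
    rw [LinearMap.sub_apply, LinearMap.comp_apply, LinearMap.comp_apply, h.Y.wtN ha, map_smul]
    by_cases hi : Even i
    · obtain ⟨l, rfl⟩ : ∃ l, i = 2 * l := by
        obtain ⟨r, hr⟩ := hi
        exact ⟨r, by omega⟩
      have h2 : h.rhoN a ∈ h.Z.grN (2 * l) := by
        rw [RatLat.grN_two] at ha ⊢
        exact h.rhoCN l a ha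
      have hd : (n : ℚ) = n' + 1 := by exact_mod_cast h.dim
      rw [h.Z.wtN h2, ← sub_smul]
      have : ((2 * l : ℕ) : ℚ) - n' - (((2 * l : ℕ) : ℚ) - (n : ℚ)) = 1 := by
        rw [hd]; ring
      rw [this, one_smul]
    · rw [h.Y.grN_odd hi] at ha
      rw [(Submodule.mem_bot _).1 ha]
      simp
  exact LinearMap.congr_fun h1 x

lemma gam_wtN (x : h.Z.Num) :
    wt h.Y.internal n (h.gamN x) - h.gamN (wt h.Z.internal n' x) = h.gamN x := by
  have h1 : (wt h.Y.internal n) ∘ₗ h.gamN - h.gamN ∘ₗ (wt h.Z.internal n') = h.gamN := by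
    apply gr_ext h.Z.internal
    intro i a ha
    rw [LinearMap.sub_apply, LinearMap.comp_apply, LinearMap.comp_apply, h.Z.wtN ha, map_smul]
    by_cases hi : Even i
    · obtain ⟨l, rfl⟩ : ∃ l, i = 2 * l := by
        obtain ⟨r, hr⟩ := hi
        exact ⟨r, by omega⟩
      have h2 : h.gamN a ∈ h.Y.grN (2 * (l + 1)) := by
        rw [RatLat.grN_two] at ha ⊢
        exact h.gamCN l a ha
      have hd : (n : ℚ) = n' + 1 := by exact_mod_cast h.dim
      rw [h.Y.wtN h2, ← sub_smul]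
      have : ((2 * (l + 1) : ℕ) : ℚ) - (n : ℚ) - (((2 * l : ℕ) : ℚ) - n') = 1 := by
        rw [hd]; push_cast; ring
      rw [this, one_smul]
    · rw [h.Z.grN_odd hi] at ha
      rw [(Submodule.mem_bot _).1 ha]
      simp
  exact LinearMap.congr_fun h1 x

/-- The two Hodge-Riemann structures on the numerical classes. -/
theorem exists_pairN [Module.Finite K V] [Module.Finite K V'] (hY : NumStd n L B C)
    (hZ : NumStd n' L' B' C') :
    ∃ Lam w Lam' w', Pair h.Y.grN n h.Y.LN h.Y.form (fun l => (h.Y.CN l : Set h.Y.Num))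
      (wt h.Y.internal n) Lam w h.Z.grN n' h.Z.LN h.Z.form
      (fun l => (h.Z.CN l : Set h.Z.Num)) (wt h.Z.internal n') Lam' w' h.rhoN h.gamN := by
  have := h.Y.finite
  have := h.Z.finite
  obtain ⟨Lam, t, hlow⟩ := h.Y.exists_lamN hY
  obtain ⟨Lam', t', hlow'⟩ := h.Z.exists_lamN hZ
  obtain ⟨w, w', ⟨w1, w3⟩, ⟨w1', w3'⟩, h1, h2⟩ := exists_weyl_pair t t'
  refine ⟨Lam, w, Lam', w', ?_⟩
  exact
    { Y :=
        { alg := h.Y.algN hY
          sl := t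
          w1 := w1
          w3 := w3
          low := hlow
          wt := fun i a ha => h.Y.wtN ha
          hom := h.Y.LN_isHom
          bd := h.Y.grN_bot }
      Z :=
        { alg := h.Z.algN hZ
          sl := t'
          w1 := w1'
          w3 := w3'
          low := hlow'
          wt := fun i a ha => h.Z.wtN ha
          hom := h.Z.LN_isHom
          bd := h.Z.grN_bot }
      dim := h.dim
      rhoL := h.rhoLN
      gamL := h.gamLN
      adj := h.adjN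
      rhoC := h.rhoCN
      gamC := h.gamCN
      rtw := h1 h.rhoN h.rhoLN h.rho_wtN
      gtw := h2 h.gamN h.gamLN h.gam_wtN }

/-- **The Hodge-Riemann relations for classes which restrict to zero, numerical form.** -/
theorem num_hodge [Module.Finite K V] [Module.Finite K V'] (hY : NumStd n L B C)
    (hZ : NumStd n' L' B' C') {j : ℕ} (hj : 2 * j ≤ n)
    (hrg : ∀ l, l + 1 = j → ∀ a ∈ C l, ∀ y ∈ C' (n' - j), B' (ρ (γ (ρ a))) y = 0)
    {s : V} (hs : s ∈ C j) (h1 : ∀ y ∈ C' (n' - j), B' (ρ s) y = 0)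
    (h6 : ∀ l, l + 1 = j → ∀ t ∈ C l, (∀ y ∈ C' (n' - l), B' (ρ t) y = 0) →
      B ((L ^ (n - 2 * j + 1)) s) t = 0) :
    (∃ a, (∀ l, l + 1 = j → a ∈ C l) ∧ (j = 0 → a = 0) ∧
      ∀ l, ∀ y ∈ C l, B s y = B (γ (ρ a)) y) ∨
    ∃ q : ℚ, B s ((L ^ (n - 2 * j)) s) = q ∧ 0 < (-1) ^ j * q := by
  obtain ⟨Lam, w, Lam', w', hp⟩ := h.exists_pairN hY hZ
  have := h.Y.finite
  have hsm : h.Y.rad.mkQ ⟨s, le_tot C j hs⟩ ∈ h.Y.CN j := h.Y.mem_CN.2 ⟨s, hs, rfl⟩
  have hr : h.rhoN (h.Y.rad.mkQ ⟨s, le_tot C j hs⟩) = 0 := by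
    rw [rhoN_mk]
    exact h.Z.mk_eq_zero (h.rhoC j s hs) h1
  have key : ∀ (U : Submodule ℚ h.Y.Num) (_ : ∀ l, l + 1 = j → U = h.Y.CN l)
      (_ : j = 0 → U = ⊥), (∃ a : U, h.Y.rad.mkQ ⟨s, le_tot C j hs⟩ =
        h.gamN (h.rhoN (a : h.Y.Num))) ∨
      ∃ q : ℚ, h.Y.form (h.Y.rad.mkQ ⟨s, le_tot C j hs⟩)
        ((h.Y.LN ^ (n - 2 * j)) (h.Y.rad.mkQ ⟨s, le_tot C j hs⟩)) = q ∧ 0 < (-1) ^ j * q := by
    intro U hU1 hU0
    refine hp.hodge (U := U) hj U.subtype.toAddMonoidHom ?_ ?_ ?_ hsm hr ?_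
    · intro l hl
      have h3 := hU1 l hl
      subst h3
      exact ⟨fun a => a.2, fun c hc => ⟨⟨c, hc⟩, rfl⟩⟩
    · intro h0 a
      have h3 := hU0 h0
      subst h3
      exact (Submodule.mem_bot _).1 a.2
    · intro l hl a ha
      obtain ⟨c, hc, rfl⟩ := h.Y.mem_CN.1 ha
      rw [rhoN_mk, gamN_mk, rhoN_mk]
      have h4 : ρ (γ (ρ c)) ∈ C' j := by
        rw [← hl]
        exact h.rhoC _ _ (h.gamC _ _ (h.rhoC _ _ hc))
      exact h.Z.mk_eq_zero h4 (hrg l hl c hc)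
    · intro l hl t ht hrt
      obtain ⟨c, hc, rfl⟩ := h.Y.mem_CN.1 ht
      rw [rhoN_mk] at hrt
      have h4 := h6 l hl c hc (fun y hy => h.Z.B_eq_zero (h.rhoC l c hc) hrt hy)
      rw [h.Y.LN_pow_mk]
      have h5 := h.Y.form_cast (h.Y.pow_mem hs (n - 2 * j + 1)) hc
      rw [h4] at h5
      exact_mod_cast h5
  obtain ⟨U, hU1, hU0⟩ : ∃ U : Submodule ℚ h.Y.Num, (∀ l, l + 1 = j → U = h.Y.CN l) ∧
      (j = 0 → U = ⊥) := by
    rcases Nat.eq_zero_or_pos j with rfl | hj0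
    · exact ⟨⊥, fun l hl => by omega, fun _ => rfl⟩
    · exact ⟨h.Y.CN (j - 1), fun l hl => by rw [← hl, Nat.add_sub_cancel], fun h0 => by omega⟩
  rcases key U hU1 hU0 with ⟨⟨a, ha⟩, h3⟩ | ⟨q, hq1, hq2⟩
  · left
    rcases Nat.eq_zero_or_pos j with rfl | hj0
    · refine ⟨0, fun l hl => by omega, fun _ => rfl, fun l y hy => ?_⟩
      have h4 := hU0 rfl
      subst h4
      have h5 : a = 0 := (Submodule.mem_bot _).1 ha
      subst h5
      rw [map_zero, map_zero] at h3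
      rw [h.Y.B_eq_zero hs h3 hy, map_zero, map_zero, map_zero, LinearMap.zero_apply]
    · obtain ⟨l, rfl⟩ : ∃ l, j = l + 1 := ⟨j - 1, by omega⟩
      have h4 := hU1 l rfl
      subst h4
      obtain ⟨c, hc, rfl⟩ := h.Y.mem_CN.1 ha
      refine ⟨c, fun l' hl' => by obtain rfl : l' = l := by omega
                                  exact hc, fun h0 => by omega, fun l' y hy => ?_⟩
      rw [rhoN_mk, gamN_mk] at h3
      have h4 : γ (ρ c) ∈ C (l + 1) := h.gamC _ _ (h.rhoC _ _ hc)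
      have h5 : s - γ (ρ c) ∈ C (l + 1) := Submodule.sub_mem _ hs h4
      have h6 : h.Y.rad.mkQ ⟨s - γ (ρ c), le_tot C _ h5⟩ = 0 := by
        have : (⟨s - γ (ρ c), le_tot C _ h5⟩ : tot C) =
          ⟨s, le_tot C _ hs⟩ - ⟨γ (ρ c), le_tot C _ h4⟩ := rfl
        rw [this, map_sub, h3, sub_self]
      have h7 := h.Y.B_eq_zero h5 h6 hy
      rw [map_sub, LinearMap.sub_apply, sub_eq_zero] at h7
      exact h7
  · right
    refine ⟨q, ?_, hq2⟩
    rw [h.Y.LN_pow_mk] at hq1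
    rw [← h.Y.form_cast hs (h.Y.pow_mem hs (n - 2 * j)), hq1]

/-- **The kernel of `γ ρ`, numerical form.** -/
theorem num_lift [Module.Finite K V] [Module.Finite K V'] (hY : NumStd n L B C)
    (hZ : NumStd n' L' B' C') {p : ℕ}
    (hgg : ∀ b ∈ C' p, ∀ y ∈ C (n - (p + 2)), B (γ (ρ (γ b))) y = 0)
    {x : V} (hx : x ∈ C (p + 1)) (h1 : ∀ y ∈ C (n - (p + 2)), B (γ (ρ x)) y = 0) :
    ∃ b ∈ C' p, ∀ l, ∀ y ∈ C' l, B' (ρ (x - γ b)) y = 0 := by
  obtain ⟨Lam, w, Lam', w', hp⟩ := h.exists_pairN hY hZ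
  have := h.Y.finite
  obtain ⟨b, hb, h2⟩ := hp.exists_lift (U := h.Z.CN p) (h.Z.CN p).subtype.toAddMonoidHom
    (p := p) (fun a => a.2) (fun c hc => ⟨⟨c, hc⟩, rfl⟩) (by
      intro b hb
      obtain ⟨c, hc, rfl⟩ := h.Z.mem_CN.1 hb
      rw [gamN_mk, rhoN_mk, gamN_mk]
      have h4 : γ (ρ (γ c)) ∈ C (p + 2) := h.gamC _ _ (h.rhoC _ _ (h.gamC _ _ hc))
      exact h.Y.mk_eq_zero h4 (hgg c hc))
    (x := h.Y.rad.mkQ ⟨x, le_tot C _ hx⟩) (h.Y.mem_CN.2 ⟨x, hx, rfl⟩) (by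
      rw [rhoN_mk, gamN_mk]
      have h4 : γ (ρ x) ∈ C (p + 2) := h.gamC _ _ (h.rhoC _ _ hx)
      exact h.Y.mk_eq_zero h4 h1)
  obtain ⟨c, hc, rfl⟩ := h.Z.mem_CN.1 hb
  refine ⟨c, hc, fun l y hy => ?_⟩
  have h5 : x - γ c ∈ C (p + 1) := Submodule.sub_mem _ hx (h.gamC _ _ hc)
  have h6 : h.Z.rad.mkQ ⟨ρ (x - γ c), le_tot C' _ (h.rhoC _ _ h5)⟩ = 0 := h2
  exact h.Z.B_eq_zero (h.rhoC _ _ h5) h6 hy

end LatPair

end Pool.Agent.Y150.HC
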