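import Pool.Agent.Y150.HC.Defs
import Pool.Agent.Y150.HC.NumPair
import Pool.Agent.Y150.Lift.Solve
import Pool.Agent.H914R2.GBasic

/-!
# The numerical standard conjectures of a family (helper150)
-/

set_option autoImplicit false
set_option linter.unusedSectionVars false

open CategoryTheory AlgebraicGeometry

universe u v w

namespace Pool.Agent.Y150.HC

open Pool.Agent.H914 Pool.Agent.H914.VarClass Pool.Agent.H914.VarClass.Obj
  Pool.Agent.H914.WeilCohomology Pool.Agent.Y150.Lift

/-- Duality: the hard Lefschetz theorem follows from injectivity. -/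
lemma RatLat.lef_of_inj {K : Type*} [Field K] [CharZero K] {V : Type*} [AddCommGroup V]
    [Module K V] [Module ℚ V] {n : ℕ} {L : Module.End K V} {B : V →ₗ[K] V →ₗ[K] K}
    {C : ℕ → Submodule ℚ V} [Module.Finite K V] (h : RatLat n L B C)
    (hinj : ∀ l, 2 * l ≤ n → ∀ c ∈ C l, (∀ d ∈ C l, B ((L ^ (n - 2 * l)) c) d = 0) →
      ∀ d ∈ C (n - l), B c d = 0) (l : ℕ) (hl : 2 * l ≤ n) (c : V) (hc : c ∈ C (n - l)) :
    ∃ c' ∈ C l, ∀ d ∈ C l, B ((L ^ (n - 2 * l)) c' - c) d = 0 := by
  have := h.finite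
  have hmap : ∀ x ∈ h.CN l, (h.LN ^ (n - 2 * l)) x ∈ h.CN (n - l) := by
    intro x hx
    obtain ⟨a, ha, rfl⟩ := h.mem_CN.1 hx
    rw [h.LN_pow_mk]
    have h1 := h.pow_mem ha (n - 2 * l)
    rw [show l + (n - 2 * l) = n - l by omega] at h1
    exact h.mem_CN.2 ⟨_, h1, rfl⟩
  let T : h.CN l →ₗ[ℚ] h.CN (n - l) := (h.LN ^ (n - 2 * l)).restrict hmap
  have hT : Function.Injective T := by
    rw [← LinearMap.ker_eq_bot, LinearMap.ker_eq_bot']
    rintro ⟨x, hx⟩ h0
    have h1 : (h.LN ^ (n - 2 * l)) x = 0 := congrArg Subtype.val h0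
    obtain ⟨a, ha, rfl⟩ := h.mem_CN.1 hx
    apply Subtype.ext
    rw [h.LN_pow_mk] at h1
    exact h.mk_eq_zero ha (hinj l hl a ha (fun d hd => h.B_eq_zero (h.pow_mem ha _) h1 hd))
  let P : h.CN (n - l) →ₗ[ℚ] Module.Dual ℚ (h.CN l) :=
    { toFun := fun y => (h.form (y : h.Num)) ∘ₗ (h.CN l).subtype
      map_add' := fun y y' => by
        rw [Submodule.coe_add, map_add]; rfl
      map_smul' := fun q y => by
        rw [Submodule.coe_smul, map_smul]; rfl }
  have hP : Function.Injective P := by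
    rw [← LinearMap.ker_eq_bot, LinearMap.ker_eq_bot']
    rintro ⟨y, hy⟩ h0
    apply Subtype.ext
    apply h.eq_zero_of hy
    intro x hx
    rw [show n - (n - l) = l by omega] at hx
    exact LinearMap.congr_fun h0 ⟨x, hx⟩
  have e1 : Module.finrank ℚ (h.CN (n - l)) ≤ Module.finrank ℚ (h.CN l) := by
    have := LinearMap.finrank_le_finrank_of_injective hP
    rwa [Subspace.dual_finrank_eq] at this
  have e2 := LinearMap.finrank_le_finrank_of_injective hT
  have hs := (LinearMap.injective_iff_surjective_of_finrank_eq_finrank (le_antisymm e2 e1)).1 hT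
  obtain ⟨⟨x, hx⟩, h3⟩ := hs ⟨h.rad.mkQ ⟨c, RatLat.le_tot C _ hc⟩, h.mem_CN.2 ⟨c, hc, rfl⟩⟩
  obtain ⟨a, ha, rfl⟩ := h.mem_CN.1 hx
  have h4 : (h.LN ^ (n - 2 * l)) (h.rad.mkQ ⟨a, RatLat.le_tot C _ ha⟩) =
    h.rad.mkQ ⟨c, RatLat.le_tot C _ hc⟩ := congrArg Subtype.val h3
  refine ⟨a, ha, fun d hd => ?_⟩
  have h5 : (L ^ (n - 2 * l)) a ∈ C (n - l) := by
    have := h.pow_mem ha (n - 2 * l)
    rwa [show l + (n - 2 * l) = n - l by omega] at this
  have h6 : (L ^ (n - 2 * l)) a - c ∈ C (n - l) := Submodule.sub_mem _ h5 hc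
  refine h.B_eq_zero h6 ?_ hd
  have : (⟨(L ^ (n - 2 * l)) a - c, RatLat.le_tot C _ h6⟩ : RatLat.tot C) =
    ⟨(L ^ (n - 2 * l)) a, RatLat.le_tot C _ h5⟩ - ⟨c, RatLat.le_tot C _ hc⟩ := rfl
  rw [this, map_sub, sub_eq_zero, ← h4, h.LN_pow_mk]

variable {k : Type u} [Field k] {𝒱 : VarClass k} {ops : CycleOps 𝒱}
  {W : WeilCohomology.{u, v} ops}

section one

variable {X : 𝒱.Obj}

lemma deg_mul {j j' : ℕ} (h : j + j' = X.dim) {z z' : X.Cycles} (hz : X.IsCyc j z)
    (hz' : X.IsCyc j' z') : (X.V.degCycle (ops.mul z z') : W.K) = W.tr X (W.cl X z * W.cl X z') := by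
  rw [← W.cl_mul, W.tr_cl (h ▸ ops.mul_mem hz hz')]

lemma numTriv_iff {j : ℕ} (hj : j ≤ X.dim) {z : X.Cycles} (hz : X.IsCyc j z) :
    NumTriv ops X j z ↔ ∀ w, X.IsCyc (X.dim - j) w → W.tr X (W.cl X z * W.cl X w) = 0 := by
  refine forall_congr' (fun w => forall_congr' (fun hw => ?_))
  rw [← deg_mul (W := W) (by omega) hz hw]
  exact (Rat.cast_eq_zero).symm

lemma numTriv_of_hom {j : ℕ} (hj : j ≤ X.dim) {z : X.Cycles} (hz : X.IsCyc j z)
    (h : W.cl X z = 0) : NumTriv ops X j z :=
  (numTriv_iff (W := W) hj hz).2 (fun w _ => by rw [h, zero_mul, map_zero])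

lemma selfNum_eq {D : X.Cycles} (hD : X.IsCyc 1 D) {j : ℕ} (hj : 2 * j ≤ X.dim) {z : X.Cycles}
    (hz : X.IsCyc j z) : (selfNum ops X D j z : W.K) = W.tr X (W.cl X z *
      (LinearMap.mulLeft W.K (W.cl X D) ^ (X.dim - 2 * j)) (W.cl X z)) := by
  rw [selfNum, deg_mul (W := W) (j := j) (j' := j + (X.dim - 2 * j)) (by omega) hz
    (divPow_mem hD _ hz), cl_divPow]

/-- Cycles of codimension zero. -/
lemma cl_zero {D : X.Cycles} (hD : X.IsCyc 1 D) (hX : HodgeIndex W X D) {z : X.Cycles}
    (hz : X.IsCyc 0 z) : ∃ q : ℚ, W.cl X z = (q : W.K) • (1 : W.H X) := by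
  have h1 := W.cl_mem hz
  rw [mul_zero, W.gr_zero, Submodule.mem_span_singleton] at h1
  obtain ⟨κ, hκ⟩ := h1
  set δ := X.V.degCycle (divPow ops D X.dim X.V.fundCycle) with hδ
  have hδ0 : 0 < δ := hX.1
  have h2 : X.IsCyc X.dim (divPow ops D X.dim X.V.fundCycle) := by
    have := divPow_mem (ops := ops) hD X.dim X.V.fundCycle_mem
    rwa [zero_add] at this
  have h3 := deg_mul (W := W) (by omega) hz h2
  rw [← hκ, smul_mul_assoc, one_mul, map_smul, W.tr_cl h2, ← hδ, smul_eq_mul] at h3
  have h4 : (δ : W.K) ≠ 0 := by exact_mod_cast hδ0.ne'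
  refine ⟨X.V.degCycle (ops.mul z (divPow ops D X.dim X.V.fundCycle)) / δ, ?_⟩
  rw [← hκ]
  congr 1
  rw [Rat.cast_div, h3]
  field_simp

/-- The numerical hard Lefschetz theorem in all codimensions. -/
lemma lefschetz_all {D : X.Cycles} (hD : X.IsCyc 1 D) (hX : NumStandard W X D) {j : ℕ}
    (hj : 2 * j ≤ X.dim) {z : X.Cycles} (hz : X.IsCyc j z)
    (h0 : NumTriv ops X (X.dim - j) (divPow ops D (X.dim - 2 * j) z)) : NumTriv ops X j z := by
  by_cases h2 : 2 * j < X.dim
  swap
  · have e : X.dim - 2 * j = 0 := by omega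
    have e2 : X.dim - j = j := by omega
    rw [e, e2] at h0
    exact h0
  rcases Nat.lt_or_ge j 2 with hj2 | hj2
  swap
  · exact hX.lefschetz j hj2 h2 z hz h0
  have hmem : ∀ {i j : ℕ} {z : X.Cycles}, X.IsCyc j z → X.IsCyc (j + i) (divPow ops D i z) :=
    fun h => divPow_mem hD _ h
  have hD' : X.IsCyc (X.dim - j) (divPow ops D (X.dim - 2 * j) z) := by
    have := hmem (i := X.dim - 2 * j) hz
    rwa [show j + (X.dim - 2 * j) = X.dim - j by omega] at this
  rw [numTriv_iff (W := W) (by omega) hD', cl_divPow] at h0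
  obtain rfl | rfl : j = 0 ∨ j = 1 := by omega
  · -- codimension zero
    obtain ⟨q, hq⟩ := cl_zero hD hX.index hz
    have h3 := h0 X.V.fundCycle (by
      rw [show X.dim - (X.dim - 0) = 0 by omega]
      exact X.V.fundCycle_mem)
    rw [W.cl_fund, mul_one, hq, map_smul, map_smul, smul_eq_mul] at h3
    have h4 : W.tr X ((LinearMap.mulLeft W.K (W.cl X D) ^ (X.dim - 2 * 0)) 1) =
        (X.V.degCycle (divPow ops D X.dim X.V.fundCycle) : W.K) := by
      have h5 : X.IsCyc X.dim (divPow ops D X.dim X.V.fundCycle) := by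
        have := hmem (i := X.dim) X.V.fundCycle_mem
        rwa [zero_add] at this
      rw [← W.tr_cl h5, cl_divPow, W.cl_fund]
      rfl
    rw [h4] at h3
    have h6 : ((X.V.degCycle (divPow ops D X.dim X.V.fundCycle) : ℚ) : W.K) ≠ 0 := by
      exact_mod_cast hX.index.1.ne'
    rcases mul_eq_zero.1 h3 with h7 | h7
    · exact numTriv_of_hom (W := W) (by omega) hz (by rw [hq, h7, zero_smul])
    · exact absurd h7 h6
  · -- divisors
    apply numTriv_of_hom (W := W) (by omega) hz
    by_contra hne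
    have h3 : X.V.degCycle (divPow ops D (X.dim - 1) z) = 0 := by
      have h5 : X.IsCyc X.dim (divPow ops D (X.dim - 1) z) := by
        have := hmem (i := X.dim - 1) hz
        rwa [show 1 + (X.dim - 1) = X.dim by omega] at this
      have h6 := h0 D (by rw [show X.dim - (X.dim - 1) = 1 by omega]; exact hD)
      have h7 := W.tr_cl h5
      rw [cl_divPow] at h7
      have h8 : (LinearMap.mulLeft W.K (W.cl X D) ^ (X.dim - 1)) (W.cl X z) =
          (LinearMap.mulLeft W.K (W.cl X D) ^ (X.dim - 2 * 1)) (W.cl X z) * W.cl X D := by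
        rw [show X.dim - 1 = (X.dim - 2 * 1) + 1 by omega, pow_succ', Module.End.mul_apply,
          LinearMap.mulLeft_apply, W.even_comm (p := 1) (W.cl_mem hD)]
      rw [h8, h6] at h7
      exact_mod_cast h7.symm
    have h4 := hX.index.2 z hz h3 hne
    have h5 := h0 z (by rw [show X.dim - (X.dim - 1) = 1 by omega]; exact hz)
    have h6 := deg_mul (W := W) (j := 1) (j' := 1 + (X.dim - 2)) (ops := ops) (by omega) hz
      (hmem (i := X.dim - 2) hz)
    rw [cl_divPow, W.even_comm (p := 1) (W.cl_mem hz)] at h6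
    have h7 : X.dim - 2 * 1 = X.dim - 2 := by omega
    rw [h7] at h5
    rw [h5] at h6
    have h8 : X.V.degCycle (ops.mul z (divPow ops D (X.dim - 2) z)) = 0 := by exact_mod_cast h6
    rw [h8] at h4
    exact lt_irrefl _ h4

/-- The numerical conjecture of Hodge type in all codimensions. -/
lemma hodge_all {D : X.Cycles} (hD : X.IsCyc 1 D) (hX : NumStandard W X D) {j : ℕ}
    (hj : 2 * j ≤ X.dim) {z : X.Cycles} (hz : X.IsCyc j z)
    (h0 : 1 ≤ j → NumTriv ops X (X.dim - j + 1) (divPow ops D (X.dim - 2 * j + 1) z))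
    (hne : ¬ NumTriv ops X j z) : 0 < (-1 : ℚ) ^ j * selfNum ops X D j z := by
  rcases Nat.lt_or_ge j 2 with hj2 | hj2
  swap
  · exact hX.hodge j hj2 hj z hz (h0 (by omega)) hne
  have hmem : ∀ {i j : ℕ} {z : X.Cycles}, X.IsCyc j z → X.IsCyc (j + i) (divPow ops D i z) :=
    fun h => divPow_mem hD _ h
  obtain rfl | rfl : j = 0 ∨ j = 1 := by omega
  · obtain ⟨q, hq⟩ := cl_zero hD hX.index hz
    have h1 := selfNum_eq (W := W) hD hj hz
    have h4 : W.tr X ((LinearMap.mulLeft W.K (W.cl X D) ^ (X.dim - 2 * 0)) 1) =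
        (X.V.degCycle (divPow ops D X.dim X.V.fundCycle) : W.K) := by
      have h5 : X.IsCyc X.dim (divPow ops D X.dim X.V.fundCycle) := by
        have := hmem (i := X.dim) X.V.fundCycle_mem
        rwa [zero_add] at this
      rw [← W.tr_cl h5, cl_divPow, W.cl_fund]
      rfl
    rw [hq, map_smul, smul_mul_smul_comm, one_mul, map_smul, h4, smul_eq_mul] at h1
    have h2 : selfNum ops X D 0 z = q * q * X.V.degCycle (divPow ops D X.dim X.V.fundCycle) := by
      have : (selfNum ops X D 0 z : W.K) =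
          ((q * q * X.V.degCycle (divPow ops D X.dim X.V.fundCycle) : ℚ) : W.K) := by
        rw [h1]; push_cast; ring
      exact_mod_cast this
    have hq0 : q ≠ 0 := by
      rintro rfl
      apply hne
      exact numTriv_of_hom (W := W) (by omega) hz (by rw [hq, Rat.cast_zero, zero_smul])
    rw [pow_zero, one_mul, h2]
    exact mul_pos (mul_self_pos.2 hq0) hX.index.1
  · have h1 := h0 le_rfl
    rw [show X.dim - 1 + 1 = X.dim by omega, show X.dim - 2 * 1 + 1 = X.dim - 1 by omega] at h1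
    have h5 : X.IsCyc X.dim (divPow ops D (X.dim - 1) z) := by
      have := hmem (i := X.dim - 1) hz
      rwa [show 1 + (X.dim - 1) = X.dim by omega] at this
    have h3 : X.V.degCycle (divPow ops D (X.dim - 1) z) = 0 := by
      rw [numTriv_iff (W := W) le_rfl h5] at h1
      have h6 := h1 X.V.fundCycle (by rw [Nat.sub_self]; exact X.V.fundCycle_mem)
      rw [W.cl_fund, mul_one, W.tr_cl h5] at h6
      exact_mod_cast h6
    have h4 := hX.index.2 z hz h3 (fun h => hne (numTriv_of_hom (W := W) (by omega) hz h))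
    have h7 : selfNum ops X D 1 z = X.V.degCycle (ops.mul z (divPow ops D (X.dim - 2) z)) := by
      rw [selfNum]
    rw [h7]
    linarith

end one

attribute [local instance] modQ

section fam

variable {ι : Type} [Fintype ι] {X : ι → 𝒱.Obj}

lemma fsmul_eq (q : ℚ) (x : ∀ i, W.H (X i)) : q • x = (q : W.K) • x := by
  funext i
  exact qsmul W q (x i)

/-- The rational lattice of a family. -/
lemma famRat {D : ∀ i, (X i).Cycles} (hD : ∀ i, (X i).IsCyc 1 (D i)) {n : ℕ}
    (hn : ∀ i, (X i).dim = n) : RatLat n (fL W X D) (fbil W X) (falg W X) where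
  smul_eq := fsmul_eq
  map_L l c hc := falg_L W hD hc
  rat l l' c hc d hd := by
    choose z hz hzc using hc
    choose w hw hwd using hd
    by_cases hl : l + l' = n
    · refine ⟨∑ i, (X i).V.degCycle (ops.mul (z i) (w i)), ?_⟩
      rw [fbil_apply, Rat.cast_sum]
      refine Finset.sum_congr rfl (fun i _ => ?_)
      rw [deg_mul (W := W) (by rw [hn]; exact hl) (hz i) (hw i), hzc, hwd]
    · refine ⟨0, ?_⟩
      rw [fbil_apply, Rat.cast_zero]
      refine Finset.sum_eq_zero (fun i _ => ?_)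
      rw [← hzc, ← hwd]
      exact W.tr_eq_zero (W.mul_mem (W.cl_mem (hz i)) (W.cl_mem (hw i))) (by rw [hn]; omega)
  self := fbil_L W hD
  deg l l' hl c hc d hd := by
    rw [fbil_apply]
    refine Finset.sum_eq_zero (fun i _ => ?_)
    exact W.tr_eq_zero (W.mul_mem (falg_gr W hc i) (falg_gr W hd i)) (by rw [hn]; omega)
  symm l l' c hc d hd := fbil_comm W (falg_gr W hc) d

lemma single_mem [DecidableEq ι] {j : ℕ} {i : ι} {a : W.H (X i)} (ha : a ∈ algClasses W (X i) j) :
    (Pi.single i a : ∀ i, W.H (X i)) ∈ falg W X j := by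
  intro i'
  by_cases h : i' = i
  · subst h
    rw [Pi.single_eq_same]
    exact ha
  · rw [Pi.single_eq_of_ne h]
    exact alg_zero j

lemma fbil_single [DecidableEq ι] (x : ∀ i, W.H (X i)) (i : ι) (a : W.H (X i)) :
    fbil W X x (Pi.single i a) = W.tr _ (x i * a) := by
  rw [fbil_apply, Finset.sum_eq_single i]
  · rw [Pi.single_eq_same]
  · intro j _ hj
    rw [Pi.single_eq_of_ne hj, mul_zero, map_zero]
  · intro h; exact absurd (Finset.mem_univ i) h

/-- A family is numerically trivial if and only if its members are. -/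
lemma fam_numTriv {n : ℕ} (hn : ∀ i, (X i).dim = n) {j : ℕ} (hj : j ≤ n)
    {z : ∀ i, (X i).Cycles} (hz : ∀ i, (X i).IsCyc j (z i)) :
    (∀ d ∈ falg W X (n - j), fbil W X (fun i => W.cl _ (z i)) d = 0) ↔
      ∀ i, NumTriv ops (X i) j (z i) := by
  classical
  constructor
  · intro h i
    rw [numTriv_iff (W := W) (by rw [hn]; exact hj) (hz i)]
    intro w hw
    have := h (Pi.single i (W.cl _ w)) (single_mem ⟨w, by rw [hn] at hw; exact hw, rfl⟩)
    rwa [fbil_single] at this
  · intro h d hd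
    rw [fbil_apply]
    refine Finset.sum_eq_zero (fun i _ => ?_)
    obtain ⟨w, hw, hwd⟩ := hd i
    have := (numTriv_iff (W := W) (by rw [hn]; exact hj) (hz i)).1 (h i) w (by rw [hn]; exact hw)
    rwa [hwd] at this

/-- The numerical standard conjectures of a family. -/
lemma famStd {D : ∀ i, (X i).Cycles} (hD : ∀ i, (X i).IsCyc 1 (D i)) {n : ℕ}
    (hn : ∀ i, (X i).dim = n) (hX : ∀ i, NumStandard W (X i) (D i)) :
    NumStd n (fL W X D) (fbil W X) (falg W X) where
  lef := by
    refine RatLat.lef_of_inj (famRat hD hn) ?_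
    intro l hl c hc h0
    choose z hz hzc using hc
    have hc' : c = fun i => W.cl _ (z i) := funext (fun i => (hzc i).symm)
    rw [hc', fam_numTriv hn (by omega) hz]
    intro i
    apply lefschetz_all (hD i) (hX i) (by rw [hn]; exact hl) (hz i)
    have h1 : ∀ i, (X i).IsCyc (n - l) (divPow ops (D i) (n - 2 * l) (z i)) := by
      intro i
      have := divPow_mem (ops := ops) (hD i) (n - 2 * l) (hz i)
      rwa [show l + (n - 2 * l) = n - l by omega] at this
    have h2 := (fam_numTriv (W := W) hn (by omega) h1).1 (by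
      rw [show n - (n - l) = l by omega]
      intro d hd
      have h3 := h0 d hd
      have h4 : (fun i => W.cl _ (divPow ops (D i) (n - 2 * l) (z i))) =
          ((fL W X D) ^ (n - 2 * l)) c := by
        funext i
        rw [cl_divPow, fL_pow_apply, hzc]
      rw [h4]
      exact h3)
    have h5 := h2 i
    rw [hn]
    exact h5
  hodge l hl c hc hp hne := by
    choose z hz hzc using hc
    have hc' : c = fun i => W.cl _ (z i) := funext (fun i => (hzc i).symm)
    have hprim : 1 ≤ l → ∀ i, NumTriv ops (X i) (n - l + 1) (divPow ops (D i) (n - 2 * l + 1) (z i)) := by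
      intro h1
      have h2 : ∀ i, (X i).IsCyc (n - l + 1) (divPow ops (D i) (n - 2 * l + 1) (z i)) := by
        intro i
        have := divPow_mem (ops := ops) (hD i) (n - 2 * l + 1) (hz i)
        rwa [show l + (n - 2 * l + 1) = n - l + 1 by omega] at this
      refine (fam_numTriv (W := W) hn (by omega) h2).1 ?_
      intro d hd
      have h3 := hp (l - 1) (by omega) d (by
        rw [show n - (n - l + 1) = l - 1 by omega] at hd
        exact hd)
      have h4 : (fun i => W.cl _ (divPow ops (D i) (n - 2 * l + 1) (z i))) =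
          ((fL W X D) ^ (n - 2 * l + 1)) c := by
        funext i
        rw [cl_divPow, fL_pow_apply, hzc]
      rw [h4]
      exact h3
    have hself : ∀ i, (selfNum ops (X i) (D i) l (z i) : W.K) =
        W.tr _ (c i * (((fL W X D) ^ (n - 2 * l)) c) i) := by
      intro i
      rw [selfNum_eq (W := W) (hD i) (by rw [hn]; exact hl) (hz i), hzc, fL_pow_apply, hn]
    have hpos : ∀ i, ¬ NumTriv ops (X i) l (z i) →
        0 < (-1 : ℚ) ^ l * selfNum ops (X i) (D i) l (z i) := by
      intro i hi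
      refine hodge_all (hD i) (hX i) (by rw [hn]; exact hl) (hz i) (fun h1 => ?_) hi
      rw [hn]
      exact hprim h1 i
    have hzero : ∀ i, NumTriv ops (X i) l (z i) → selfNum ops (X i) (D i) l (z i) = 0 := by
      intro i hi
      refine hi _ ?_
      have := divPow_mem (ops := ops) (hD i) ((X i).dim - 2 * l) (hz i)
      rwa [show l + ((X i).dim - 2 * l) = (X i).dim - l by rw [hn]; omega] at this
    refine ⟨∑ i, selfNum ops (X i) (D i) l (z i), ?_, ?_⟩
    · rw [fbil_apply, Rat.cast_sum]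
      exact Finset.sum_congr rfl (fun i _ => (hself i).symm)
    · rw [Finset.mul_sum]
      have hex : ∃ i, ¬ NumTriv ops (X i) l (z i) := by
        by_contra h
        push Not at h
        obtain ⟨d, hd, hd0⟩ := hne
        apply hd0
        rw [hc']
        exact (fam_numTriv (W := W) hn (by omega) hz).2 h d hd
      obtain ⟨i, hi⟩ := hex
      refine Finset.sum_pos' (fun j _ => ?_) ⟨i, Finset.mem_univ i, hpos i hi⟩
      by_cases hj : NumTriv ops (X j) l (z j)
      · rw [hzero j hj, mul_zero]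
      · exact (hpos j hj).le

end fam

end Pool.Agent.Y150.HC
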