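import Pool.Agent.H914R2.Sl2Rep

/-!
# Operators of weight one between two representations of `sl(2)` (helper150)
-/

set_option autoImplicit false
set_option linter.unusedSectionVars false

open Finset
open IsNilpotent (exp exp_eq_sum)

namespace Pool.Agent.Y150.HC

open Pool.Agent.H914

variable {K : Type*} [Field K] [CharZero K] {V V' : Type*} [AddCommGroup V] [Module K V]
  [AddCommGroup V'] [Module K V']

/-- If `[a, X] = Y` and `[a, Y] = 0`, then `[a ^ k, X] = k Y a ^ (k-1)`. -/
lemma pow_comm_aux (a' : Module.End K V') (a : Module.End K V) (X Y : V →ₗ[K] V')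
    (h1 : a' ∘ₗ X - X ∘ₗ a = Y) (h2 : a' ∘ₗ Y = Y ∘ₗ a) (k : ℕ) (x : V) :
    (a' ^ (k + 1)) (X x) = X ((a ^ (k + 1)) x) + (k + 1) • (Y ((a ^ k) x)) := by
  have h3 : ∀ (k : ℕ) (x : V), (a' ^ k) (Y x) = Y ((a ^ k) x) := by
    intro k
    induction k with
    | zero => intro x; rfl
    | succ k ih =>
      intro x
      rw [pow_succ', Module.End.mul_apply, ih, pow_succ', Module.End.mul_apply]
      exact LinearMap.congr_fun h2 _
  have h1' : ∀ x, a' (X x) = X (a x) + Y x := by
    intro x
    have := LinearMap.congr_fun h1 x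
    simp only [LinearMap.sub_apply, LinearMap.comp_apply] at this
    rw [← this]; abel
  induction k with
  | zero =>
    simp only [zero_add, pow_one, pow_zero, one_smul, Module.End.one_apply]
    exact h1' x
  | succ k ih =>
    rw [pow_succ', Module.End.mul_apply, ih, map_add, map_nsmul, h1']
    have h4 : a' (Y ((a ^ k) x)) = Y ((a ^ (k + 1)) x) := by
      rw [pow_succ', Module.End.mul_apply]
      exact LinearMap.congr_fun h2 _
    rw [h4, ← Module.End.mul_apply a, ← pow_succ', add_assoc]
    congr 1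
    rw [add_smul (k + 1) 1, one_smul, add_comm]

/-- The exponential of such an operator. -/
lemma exp_comm_aux [Module ℚ V] [Module ℚ V']
    {a' : Module.End K V'} {a : Module.End K V}
    (ha' : IsNilpotent a') (ha : IsNilpotent a) {X Y : V →ₗ[K] V'}
    (h1 : a' ∘ₗ X - X ∘ₗ a = Y) (h2 : a' ∘ₗ Y = Y ∘ₗ a) (x : V) :
    exp a' (X x) = (X + Y) (exp a x) := by
  obtain ⟨N, hN⟩ := ha'
  obtain ⟨M, hM⟩ := ha
  have e1 : a' ^ (max N M + 1) = 0 := pow_eq_zero_of_le (by omega) hN
  have e2 : a ^ (max N M + 1) = 0 := pow_eq_zero_of_le (by omega) hM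
  have e3 : a ^ (max N M) = 0 := pow_eq_zero_of_le (by omega) hM
  set P := max N M with hP
  have h5 : exp a x = ∑ k ∈ range P, ((k.factorial : ℚ)⁻¹) • (a ^ k) x := by
    rw [exp_eq_sum e3]
    simp only [LinearMap.sum_apply, LinearMap.smul_apply]
  have h6 : X (exp a x) = ∑ k ∈ range (P + 1), ((k.factorial : ℚ)⁻¹) • X ((a ^ k) x) := by
    rw [exp_eq_sum e2]
    simp only [LinearMap.sum_apply, LinearMap.smul_apply, map_sum, map_rat_smul]
  rw [LinearMap.add_apply, h6, h5, exp_eq_sum e1]
  simp only [LinearMap.sum_apply, LinearMap.smul_apply, map_sum, map_rat_smul]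
  rw [Finset.sum_range_succ', Finset.sum_range_succ' (fun k => ((k.factorial : ℚ)⁻¹) • X ((a ^ k) x)),
    add_right_comm, ← Finset.sum_add_distrib]
  congr 1
  refine Finset.sum_congr rfl (fun k _ => ?_)
  rw [pow_comm_aux a' a X Y h1 h2 k x, smul_add]
  congr 1
  rw [← Nat.cast_smul_eq_nsmul ℚ, smul_smul, Nat.factorial_succ]
  congr 1
  have h7 : (k.factorial : ℚ) ≠ 0 := by exact_mod_cast Nat.factorial_ne_zero k
  have h8 : ((k : ℚ) + 1) ≠ 0 := by positivity
  push_cast
  field_simp

variable {H e f : Module.End K V} {H' e' f' : Module.End K V'}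

/-- The adjoint representation on the linear maps. -/
noncomputable def adj (a' : Module.End K V') (a : Module.End K V) :
    Module.End K (V →ₗ[K] V') where
  toFun X := a' ∘ₗ X - X ∘ₗ a
  map_add' X Y := by
    rw [LinearMap.comp_add, LinearMap.add_comp]; abel
  map_smul' c X := by
    rw [LinearMap.comp_smul, LinearMap.smul_comp, ← smul_sub]; rfl

lemma adj_apply (a' : Module.End K V') (a : Module.End K V) (X : V →ₗ[K] V') (x : V) :
    adj a' a X x = a' (X x) - X (a x) := rfl

lemma adj_sl2 (t : Sl2 H e f) (t' : Sl2 H' e' f') : Sl2 (adj H' H) (adj e' e) (adj f' f) := by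
  have ef : ∀ x, e (f x) - f (e x) = H x := fun x => LinearMap.congr_fun t.ef x
  have ef' : ∀ x, e' (f' x) - f' (e' x) = H' x := fun x => LinearMap.congr_fun t'.ef x
  have he : ∀ x, H (e x) - e (H x) = e x + e x := fun x => by
    have := LinearMap.congr_fun t.he x
    rw [two_mul] at this
    exact this
  have he' : ∀ x, H' (e' x) - e' (H' x) = e' x + e' x := fun x => by
    have := LinearMap.congr_fun t'.he x
    rw [two_mul] at this
    exact this
  have hf : ∀ x, H (f x) - f (H x) = -(f x + f x) := fun x => by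
    have := LinearMap.congr_fun t.hf x
    rw [two_mul] at this
    exact this
  have hf' : ∀ x, H' (f' x) - f' (H' x) = -(f' x + f' x) := fun x => by
    have := LinearMap.congr_fun t'.hf x
    rw [two_mul] at this
    exact this
  constructor
  · apply LinearMap.ext; intro X
    apply LinearMap.ext; intro x
    simp only [LinearMap.sub_apply, Module.End.mul_apply, adj_apply, map_sub]
    rw [← ef', ← ef, map_sub]
    abel
  · apply LinearMap.ext; intro X
    apply LinearMap.ext; intro x
    rw [two_mul]
    simp only [LinearMap.sub_apply, Module.End.mul_apply, adj_apply, map_sub, LinearMap.add_apply]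
    have h1 := congrArg X (he x)
    rw [map_sub, map_add] at h1
    have h2 := he' (X x)
    calc _ = (H' (e' (X x)) - e' (H' (X x))) - (X (H (e x)) - X (e (H x))) := by abel
      _ = _ := by rw [h1, h2]; abel
  · apply LinearMap.ext; intro X
    apply LinearMap.ext; intro x
    rw [two_mul]
    simp only [LinearMap.sub_apply, Module.End.mul_apply, adj_apply, map_sub, LinearMap.add_apply,
      LinearMap.neg_apply]
    have h1 := congrArg X (hf x)
    rw [map_sub, map_neg, map_add] at h1
    have h2 := hf' (X x)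
    calc _ = (H' (f' (X x)) - f' (H' (X x))) - (X (H (f x)) - X (f (H x))) := by abel
      _ = _ := by rw [h1, h2]; abel

/-- **The twist lemma.** The Weyl elements intertwine an operator of weight one which commutes
with `e` with its commutator with `f`. -/
lemma weyl_twist [Module.Finite K V] [Module.Finite K V'] [Module ℚ V] [Module ℚ V']
    (t : Sl2 H e f) (t' : Sl2 H' e' f') (T : V →ₗ[K] V')
    (hT : ∀ x, e' (T x) = T (e x)) (hTH : ∀ x, H' (T x) - T (H x) = T x) (x : V) :
    weyl e' f' (T x) = T (f (weyl e f x)) - f' (T (weyl e f x)) := by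
  have tt := (adj_sl2 t t').neg_swap
  set S : V →ₗ[K] V' := adj f' f T with hS
  have h1 : (-adj e' e) T = 0 := by
    apply LinearMap.ext
    intro x
    rw [LinearMap.neg_apply, LinearMap.neg_apply, adj_apply, hT, sub_self, neg_zero]
    rfl
  have h2 : (-adj H' H) T = -((1 : ℕ) : K) • T := by
    apply LinearMap.ext
    intro x
    rw [LinearMap.neg_apply, LinearMap.neg_apply, adj_apply, hTH]
    simp
  have h3 := tt.e_pow_zero h1 h2 (k := 2) (by norm_num)
  have h4 : adj f' f S = 0 := by
    rw [pow_two, Module.End.mul_apply, LinearMap.neg_apply, LinearMap.neg_apply, map_neg,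
      neg_neg] at h3
    exact h3
  have h5 : f' ∘ₗ S = S ∘ₗ f := by
    apply LinearMap.ext
    intro x
    have := LinearMap.congr_fun h4 x
    rw [adj_apply] at this
    exact sub_eq_zero.1 this
  -- `[e, S] = T`
  have h6 : e' ∘ₗ S - S ∘ₗ e = T := by
    apply LinearMap.ext
    intro x
    have e1 : e' (f' (T x)) - f' (e' (T x)) = H' (T x) := LinearMap.congr_fun t'.ef (T x)
    have e2 : e (f x) - f (e x) = H x := LinearMap.congr_fun t.ef x
    have e3 : T (e (f x)) - T (f (e x)) = T (H x) := by rw [← map_sub, e2]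
    rw [LinearMap.sub_apply, LinearMap.comp_apply, LinearMap.comp_apply, hS, adj_apply, adj_apply,
      map_sub, hT]
    have hx := hTH x
    rw [← e1, ← e3, hT] at hx
    calc _ = e' (f' (T x)) - f' (T (e x)) - (T (e (f x)) - T (f (e x))) := by abel
      _ = T x := hx
  have n1 := t.nil_e
  have n2 := t.nil_f
  have n1' := t'.nil_e
  have n2' := t'.nil_f
  have s1 : ∀ x, exp e' (T x) = T (exp e x) := by
    intro x
    have := exp_comm_aux n1' n1 (X := T) (Y := 0) (by
      apply LinearMap.ext
      intro x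
      rw [LinearMap.sub_apply, LinearMap.comp_apply, LinearMap.comp_apply, hT, sub_self]
      rfl) (by rw [LinearMap.comp_zero, LinearMap.zero_comp]) x
    rw [add_zero] at this
    exact this
  have s2 : ∀ x, exp (-f') (T x) = (T - S) (exp (-f) x) := by
    intro x
    have := exp_comm_aux n2'.neg n2.neg (X := T) (Y := -S) (by
      apply LinearMap.ext
      intro x
      simp only [LinearMap.sub_apply, LinearMap.comp_apply, LinearMap.neg_apply, hS, adj_apply,
        map_neg]
      abel) (by
      rw [LinearMap.neg_comp, LinearMap.comp_neg, LinearMap.comp_neg, LinearMap.neg_comp, h5]) x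
    rw [← sub_eq_add_neg] at this
    exact this
  have s3 : ∀ x, exp e' (S x) = (S + T) (exp e x) := by
    intro x
    refine exp_comm_aux n1' n1 (X := S) (Y := T) h6 ?_ x
    apply LinearMap.ext
    intro x
    exact hT x
  have h7 : weyl e' f' (T x) = exp e' (exp (-f') (exp e' (T x))) := rfl
  have h8 : weyl e f x = exp e (exp (-f) (exp e x)) := rfl
  rw [h7, s1, s2, LinearMap.sub_apply, map_sub, s1, s3, LinearMap.add_apply, ← h8, hS, adj_apply]
  abel

/-- The Weyl operators of two finite-dimensional representations. -/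
theorem exists_weyl_pair [Module.Finite K V] [Module.Finite K V']
    (t : Sl2 H e f) (t' : Sl2 H' e' f') : ∃ (w : Module.End K V) (w' : Module.End K V'),
    (w * e = -(f * w) ∧
      ∀ (m : ℕ) (v : V), f v = 0 → H v = -(m : K) • v →
        w v = ((m.factorial : K)⁻¹) • (e ^ m) v) ∧
    (w' * e' = -(f' * w') ∧
      ∀ (m : ℕ) (v : V'), f' v = 0 → H' v = -(m : K) • v →
        w' v = ((m.factorial : K)⁻¹) • (e' ^ m) v) ∧
    (∀ T : V →ₗ[K] V', (∀ x, e' (T x) = T (e x)) → (∀ x, H' (T x) - T (H x) = T x) →
      ∀ x, w' (T x) = T (f (w x)) - f' (T (w x))) ∧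
    ∀ T : V' →ₗ[K] V, (∀ x, e (T x) = T (e' x)) → (∀ x, H (T x) - T (H' x) = T x) →
      ∀ x, w (T x) = T (f' (w' x)) - f (T (w' x)) := by
  let _ : Module ℚ V := Module.compHom V (algebraMap ℚ K)
  let _ : Module ℚ V' := Module.compHom V' (algebraMap ℚ K)
  refine ⟨weyl e f, weyl e' f', ⟨t.weyl_e t.nil_e t.nil_f, fun m v hv hμ =>
    t.weyl_lowest hv hμ⟩, ⟨t'.weyl_e t'.nil_e t'.nil_f, fun m v hv hμ => t'.weyl_lowest hv hμ⟩,
    fun T h1 h2 x => weyl_twist t t' T h1 h2 x, fun T h1 h2 x => weyl_twist t' t T h1 h2 x⟩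

end Pool.Agent.Y150.HC
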